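import Mathlib
import Pool.Agent.R365.SH.Upper
import Pool.Agent.TH876.Glob
import Pool.Agent.TH876.Sums

set_option autoImplicit false

/-!
# The sharp upper bound for the number of points with prescribed reductions
-/

namespace Pool.Agent.R365.CV

open NumberField IsDedekindDomain Finset Pool.Agent.H691R3 Pool.Agent.R365.SH

variable {K : Type} [Field K] [NumberField K]

omit [NumberField K] in
/-- a geometric sum over finite sets -/
theorem geom_sum_le {q : ℕ} {ρ : ℝ} (hρ0 : 0 ≤ ρ) (hρ1 : ρ < 1)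
    (A : Finset (Pl K)) (s : Finset (Pl K × Fin q × ℕ)) (hs : ∀ a ∈ s, a.1 ∈ A) :
    ∑ a ∈ s, ρ ^ a.2.2 ≤ A.card * (q * (1 / (1 - ρ))) := by
  classical
  obtain ⟨N, hN⟩ : ∃ N : ℕ, ∀ a ∈ s, a.2.2 < N := by
    refine ⟨s.sup (fun a => a.2.2) + 1, fun a ha => ?_⟩
    have : a.2.2 ≤ s.sup (fun a => a.2.2) := Finset.le_sup (f := fun a : Pl K × Fin q × ℕ => a.2.2) ha
    omega
  have hsub : s ⊆ A ×ˢ ((Finset.univ : Finset (Fin q)) ×ˢ Finset.range N) := by
    intro a ha
    rw [Finset.mem_product, Finset.mem_product, Finset.mem_range]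
    exact ⟨hs a ha, Finset.mem_univ _, hN a ha⟩
  have h0 : ∀ a : Pl K × Fin q × ℕ, 0 ≤ ρ ^ a.2.2 := fun a => pow_nonneg hρ0 _
  calc ∑ a ∈ s, ρ ^ a.2.2 ≤ ∑ a ∈ A ×ˢ ((Finset.univ : Finset (Fin q)) ×ˢ Finset.range N),
        ρ ^ a.2.2 := Finset.sum_le_sum_of_subset_of_nonneg hsub fun a _ _ => h0 a
    _ = A.card * (q * ∑ m ∈ Finset.range N, ρ ^ m) := by
        rw [Finset.sum_product]
        simp only
        rw [Finset.sum_const, nsmul_eq_mul, Finset.sum_product]
        simp only
        rw [Finset.sum_const, nsmul_eq_mul, Finset.card_univ, Fintype.card_fin]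
    _ ≤ _ := by
        refine mul_le_mul_of_nonneg_left (mul_le_mul_of_nonneg_left ?_ (Nat.cast_nonneg _))
          (Nat.cast_nonneg _)
        rw [one_div, ← tsum_geometric_of_lt_one hρ0 hρ1]
        exact (summable_geometric_of_lt_one hρ0 hρ1).sum_le_tsum _ fun m _ => pow_nonneg hρ0 m

/-- the sharp count of the points which are not exceptional, with prescribed reductions -/
theorem main_upper_pre {q : ℕ} (hq : 3 ≤ q) (T : Set (HeightOneSpectrum (𝓞 K))) (hT : T.Finite)
    (α : Fin q → K × K) (hα0 : ∀ l, α l ≠ 0)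
    (hα : ∀ i j, i ≠ j → wg (α i) (α j) ≠ 0)
    (c : ℝ) (hc0 : 0 ≤ c) (hc1 : c < 1 - 2 / q) :
    ∃ C M : ℝ, 0 ≤ C ∧ 1 ≤ M ∧ ∀ Λ t : ℝ, 0 ≤ Λ → ∀ A : Finset (HeightOneSpectrum (𝓞 K)),
      ∀ E : Finset K,
      (∀ x ∈ E, Off α x ∧ NTc T α x ≤ Λ ∧ (q - 1 / 4) * hr (aff x) ≤ NTc T α x ∧
        t ≤ q * hr (aff x) - NTc T α x ∧
        ∀ v ∈ A, ∃ l, Real.log (Nv v) ≤ lam (Sum.inr v : Pl K) (aff x) (α l)) →
      (E.card : ℝ) ≤ C * M ^ A.card * (Real.exp (1 / q * Λ) +
        Real.exp (2 / q * Λ - c * t) * Real.exp (-∑ v ∈ A, Real.log (Nv v))) := by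
  classical
  have hqR : (3 : ℝ) ≤ q := by exact_mod_cast hq
  have hq0 : (0 : ℝ) < q := by linarith
  obtain ⟨Sp, _, _, C1, hC1, hB⟩ := exists_blocks2 (by omega : 0 < q) T hT α hα0 hα
  obtain ⟨C2, hC2, hup⟩ := blocks_upper T α hα0 Sp
  set θ : ℝ := 1 - 2 / q - c with hθ
  have hθ0 : 0 < θ := by rw [hθ]; linarith
  have hq2 : 0 < 2 / (q : ℝ) := by positivity
  have hθ1 : θ ≤ 1 := by rw [hθ]; linarith
  set η : ℝ := θ / 2 with hη
  have hη0 : 0 < η := by rw [hη]; linarith
  have hη1 : η ≤ 1 / 2 := by rw [hη]; linarith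
  obtain ⟨F0, hF0⟩ := weights2_bounded Sp q hη0
  set C3 : ℝ := 32 * Real.exp (3 * lossK K) with hC3
  have hC30 : 0 ≤ C3 := by positivity
  set LS : ℝ := ∑ v ∈ Sp, Lu v with hLS
  have hLS0 : 0 ≤ LS := Finset.sum_nonneg fun v _ => (Lu_pos v).le
  set ρ : ℝ := Real.exp (-(η * Real.log 2)) with hρ
  have hlog2 : 0 < Real.log 2 := Real.log_pos (by norm_num)
  have hρ0 : 0 ≤ ρ := (Real.exp_pos _).le
  have hρ1 : ρ < 1 := by
    rw [hρ, Real.exp_lt_one_iff]
    have := mul_pos hη0 hlog2
    linarith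
  set F1 : ℝ := q * (1 / (1 - ρ)) with hF1
  have hF10 : 0 ≤ F1 := by
    rw [hF1]
    have : 0 < 1 - ρ := by linarith
    positivity
  refine ⟨C3 * Real.exp F0 * Real.exp (2 * C2 + 2 * C1 / q + c * C1 + LS),
    q * Real.exp (4 * F1), by positivity, ?_, ?_⟩
  · have h1 : (1 : ℝ) ≤ Real.exp (4 * F1) := Real.one_le_exp (by positivity)
    nlinarith
  intro Λ t hΛ A E hE
  have hex : ∀ x : K, ∃ B : Finset (Pl K × Fin q × ℕ), x ∈ E →
      Set.InjOn (fun a : Pl K × Fin q × ℕ => a.1) B ∧
        (∀ a ∈ B, wt a ≤ lam a.1 (aff x) (α a.2.1)) ∧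
        (∀ a ∈ B, 1 ≤ a.2.2 ∧ cst Sp a ≤ wt a / 2) ∧
        q * hr (aff x) - NTc T α x - C1 ≤ ∑ a ∈ B, (wt a - cst Sp a) := by
    intro x
    by_cases hx : x ∈ E
    · obtain ⟨B, hBl⟩ := hB x (hE x hx).1
      refine ⟨B.filter fun a => cst Sp a ≤ wt a / 2, fun _ => ⟨?_, ?_, ?_, ?_⟩⟩
      · intro a ha b hb hab
        exact hBl.inj (Finset.mem_filter.mp ha).1 (Finset.mem_filter.mp hb).1 hab
      · intro a ha
        exact hBl.le_lam a (Finset.mem_filter.mp ha).1
      · intro a ha
        rw [Finset.mem_filter] at ha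
        exact ⟨hBl.one_le a ha.1, ha.2⟩
      · refine hBl.excess.trans (le_of_eq ?_)
        refine (Finset.sum_filter_of_ne fun a ha hne => ?_).symm
        by_contra hcon
        apply hne
        rw [not_le] at hcon
        have h1 := hBl.one_le a ha
        have hL := Lu_pos a.1
        unfold cst wt at hcon ⊢
        split_ifs at hcon ⊢ with h2
        · exfalso
          have : (0 : ℝ) ≤ (a.2.2 : ℝ) * Lu a.1 := by positivity
          linarith
        · have h3 : (a.2.2 : ℝ) < 2 := by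
            by_contra h4
            rw [not_lt] at h4
            nlinarith
          have h5 : a.2.2 < 2 := by exact_mod_cast h3
          have h6 : a.2.2 = 1 := by omega
          rw [h6, Nat.cast_one, one_mul, sub_self]
    · exact ⟨∅, fun h => absurd h hx⟩
  choose D hD using hex
  have hl0 : ∀ x : K, ∃ σ : A → Fin q, x ∈ E → ∀ v : A,
      Real.log (Nv v.1) ≤ lam (Sum.inr v.1 : Pl K) (aff x) (α (σ v)) := by
    intro x
    by_cases hx : x ∈ E
    · have h := (hE x hx).2.2.2.2
      choose l hl using h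
      exact ⟨fun v => l v.1 v.2, fun _ v => hl v.1 v.2⟩
    · exact ⟨fun _ => ⟨0, by omega⟩, fun h => absurd h hx⟩
  choose σ hσ using hl0
  -- the extended blocks
  obtain ⟨R, hR⟩ : ∃ R : Finset (Pl K × Fin q × ℕ) → Finset A, R = fun B =>
    Finset.univ.filter fun v : A => (Sum.inr v.1 : Pl K) ∉ B.image (fun a => a.1) := ⟨_, rfl⟩
  obtain ⟨ext, hext⟩ : ∃ ext : Finset (Pl K × Fin q × ℕ) → (A → Fin q) →
    Finset (Pl K × Fin q × ℕ), ext = fun (B : Finset (Pl K × Fin q × ℕ)) (s : A → Fin q) =>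
    B ∪ (R B).image (fun v : A => ((Sum.inr v.1 : Pl K), s v, 1)) := ⟨_, rfl⟩
  have hdisj : ∀ (B : Finset (Pl K × Fin q × ℕ)) (s : A → Fin q), Disjoint B ((R B).image (fun v : A => ((Sum.inr v.1 : Pl K), s v, 1))) := by
    intro B s
    rw [Finset.disjoint_right]
    intro a ha hB
    rw [Finset.mem_image] at ha
    obtain ⟨v, hv, rfl⟩ := ha
    rw [hR, Finset.mem_filter] at hv
    apply hv.2
    rw [Finset.mem_image]
    exact ⟨_, hB, rfl⟩
  have hinj : ∀ s : A → Fin q, Function.Injective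
      (fun v : A => ((Sum.inr v.1 : Pl K), s v, 1)) := by
    intro s v w h
    have h1 := congrArg (fun a : Pl K × Fin q × ℕ => a.1) h
    exact Subtype.ext (Sum.inr_injective h1)
  have hsumext : ∀ (B : Finset (Pl K × Fin q × ℕ)) (s : A → Fin q), ∑ a ∈ ext B s, (a.2.2 : ℝ) * Lu a.1 =
      ∑ a ∈ B, wt a + ∑ v ∈ R B, Real.log (Nv v.1) := by
    intro B s
    rw [hext]
    simp only
    rw [Finset.sum_union (hdisj B s), Finset.sum_image (fun a _ b _ h => hinj s h)]
    congr 1
    refine Finset.sum_congr rfl fun v _ => ?_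
    show ((1 : ℕ) : ℝ) * Lu (Sum.inr v.1 : Pl K) = _
    rw [Nat.cast_one, one_mul]
    rfl
  -- the weights
  set AP : Finset (Pl K) := A.image Sum.inr with hAP
  set w' : Pl K × Fin q × ℕ → ℝ := fun a =>
    fwt2 Sp η a * (if a.1 ∈ AP then Real.exp (cst Sp a) else 1) with hw'
  have hcst0 : ∀ a : Pl K × Fin q × ℕ, 0 ≤ cst Sp a := by
    intro a
    unfold cst
    split_ifs
    · exact le_rfl
    · exact (Lu_pos _).le
  have hw0 : ∀ a, fwt2 Sp η a ≤ w' a := by
    intro a
    rw [hw']
    simp only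
    have h1 := fwt2_nonneg Sp η a
    have h2 : (1 : ℝ) ≤ (if a.1 ∈ AP then Real.exp (cst Sp a) else 1) := by
      split_ifs
      · exact Real.one_le_exp (hcst0 a)
      · exact le_rfl
    nlinarith
  have hw00 : ∀ a, 0 ≤ w' a := fun a => (fwt2_nonneg Sp η a).trans (hw0 a)
  have hAPcard : (AP.card : ℝ) = A.card := by
    rw [hAP, Finset.card_image_of_injective _ Sum.inr_injective]
  have hwsum : ∀ s : Finset (Pl K × Fin q × ℕ), ∑ a ∈ s, w' a ≤ F0 + A.card * (4 * F1) := by
    intro s
    have h1 : ∀ a ∈ s, w' a ≤ fwt2 Sp η a + (if a.1 ∈ AP then 4 * ρ ^ a.2.2 else 0) := by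
      intro a _
      rw [hw']
      simp only
      split_ifs with h
      · have h2 := fwt2_nonneg Sp η a
        refine le_trans ?_ (le_add_of_nonneg_left h2)
        unfold fwt2
        split_ifs with h3
        · rw [mul_assoc, ← Real.exp_add]
          refine mul_le_mul_of_nonneg_left ?_ (by norm_num)
          have hpow : ρ ^ a.2.2 = Real.exp (-(a.2.2 * (η * Real.log 2))) := by
            rw [hρ, ← Real.exp_nat_mul]
            congr 1
            ring
          rw [hpow]
          refine Real.exp_le_exp.mpr ?_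
          have hLu := log_two_le_Lu' a.1
          have h4 : (a.2.2 : ℝ) * (η * Real.log 2) ≤ a.2.2 * (η * Lu a.1) :=
            mul_le_mul_of_nonneg_left (mul_le_mul_of_nonneg_left hLu hη0.le) (Nat.cast_nonneg _)
          unfold wt
          linarith
        · rw [zero_mul]
          positivity
      · rw [mul_one, add_zero]
    refine (Finset.sum_le_sum h1).trans ?_
    rw [Finset.sum_add_distrib]
    refine add_le_add (hF0 s) ?_
    rw [← Finset.sum_filter, ← Finset.mul_sum]
    have h2 := geom_sum_le hρ0 hρ1 AP (s.filter fun a => a.1 ∈ AP) fun a ha =>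
      (Finset.mem_filter.mp ha).2
    rw [hAPcard] at h2
    calc 4 * ∑ a ∈ s.filter (fun a => a.1 ∈ AP), ρ ^ a.2.2 ≤ 4 * (A.card * F1) :=
          mul_le_mul_of_nonneg_left h2 (by norm_num)
      _ = _ := by ring
  -- the product over the missing primes
  have hmiss : ∀ B : Finset (Pl K × Fin q × ℕ), Set.InjOn (fun a : Pl K × Fin q × ℕ => a.1) B →
      Real.exp (-∑ v ∈ R B, Real.log (Nv v.1)) ≤ Real.exp LS *
        Real.exp (-∑ v ∈ A, Real.log (Nv v)) *
        ∏ a ∈ B, (if a.1 ∈ AP then Real.exp (cst Sp a) else 1) := by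
    intro B hBinj
    have h1 : ∏ a ∈ B, (if a.1 ∈ AP then Real.exp (cst Sp a) else 1) =
        Real.exp (∑ a ∈ B.filter (fun a => a.1 ∈ AP), cst Sp a) := by
      rw [Real.exp_sum, Finset.prod_filter]
    rw [h1, ← Real.exp_add, ← Real.exp_add]
    refine Real.exp_le_exp.mpr ?_
    have h2 : ∑ v ∈ A, Real.log (Nv v) = ∑ v : A, Real.log (Nv v.1) :=
      (Finset.sum_coe_sort A (fun v => Real.log (Nv v))).symm
    have h3 : ∑ v : A, Real.log (Nv v.1) = ∑ v ∈ R B, Real.log (Nv v.1) +
        ∑ v ∈ Finset.univ.filter (fun v : A => ¬ (Sum.inr v.1 : Pl K) ∉ B.image (fun a => a.1)),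
          Real.log (Nv v.1) := by
      rw [hR]
      exact (Finset.sum_filter_add_sum_filter_not _ _ _).symm
    have h4 : ∑ v ∈ Finset.univ.filter
        (fun v : A => ¬ (Sum.inr v.1 : Pl K) ∉ B.image (fun a => a.1)), Real.log (Nv v.1) ≤
        ∑ a ∈ B.filter (fun a => a.1 ∈ AP), Lu a.1 := by
      have e1 : ∑ a ∈ B.filter (fun a => a.1 ∈ AP), Lu a.1 =
          ∑ p ∈ (B.filter (fun a => a.1 ∈ AP)).image (fun a => a.1), Lu p := by
        rw [Finset.sum_image]
        intro a ha b hb hab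
        exact hBinj (Finset.mem_filter.mp ha).1 (Finset.mem_filter.mp hb).1 hab
      have e2 : ∑ v ∈ Finset.univ.filter
          (fun v : A => ¬ (Sum.inr v.1 : Pl K) ∉ B.image (fun a => a.1)), Real.log (Nv v.1) =
          ∑ p ∈ (Finset.univ.filter (fun v : A =>
            ¬ (Sum.inr v.1 : Pl K) ∉ B.image (fun a => a.1))).image
              (fun v : A => (Sum.inr v.1 : Pl K)), Lu p := by
        rw [Finset.sum_image]
        · rfl
        · intro v _ w _ h
          exact Subtype.ext (Sum.inr_injective h)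
      rw [e1, e2]
      refine Finset.sum_le_sum_of_subset_of_nonneg ?_ fun p _ _ => (Lu_pos p).le
      intro p hp
      rw [Finset.mem_image] at hp
      obtain ⟨v, hv, rfl⟩ := hp
      rw [Finset.mem_filter, not_not, Finset.mem_image] at hv
      obtain ⟨_, a, ha, hav⟩ := hv
      rw [Finset.mem_image]
      refine ⟨a, ?_, hav⟩
      rw [Finset.mem_filter, hav, hAP, Finset.mem_image]
      exact ⟨ha, v.1, v.2, rfl⟩
    have h5 : ∑ a ∈ B.filter (fun a => a.1 ∈ AP), Lu a.1 ≤
        ∑ a ∈ B.filter (fun a => a.1 ∈ AP), cst Sp a + LS := by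
      have e1 : ∀ a ∈ B.filter (fun a => a.1 ∈ AP), Lu a.1 ≤
          cst Sp a + (if a.1 ∈ Sp then Lu a.1 else 0) := by
        intro a _
        unfold cst
        split_ifs <;> linarith
      refine (Finset.sum_le_sum e1).trans ?_
      rw [Finset.sum_add_distrib]
      refine add_le_add le_rfl ?_
      rw [← Finset.sum_filter]
      have e2 : ∑ a ∈ (B.filter (fun a => a.1 ∈ AP)).filter (fun a => a.1 ∈ Sp), Lu a.1 =
          ∑ p ∈ ((B.filter (fun a => a.1 ∈ AP)).filter (fun a => a.1 ∈ Sp)).image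
            (fun a => a.1), Lu p := by
        rw [Finset.sum_image]
        intro a ha b hb hab
        exact hBinj (Finset.mem_filter.mp (Finset.mem_filter.mp ha).1).1
          (Finset.mem_filter.mp (Finset.mem_filter.mp hb).1).1 hab
      rw [e2, hLS]
      refine Finset.sum_le_sum_of_subset_of_nonneg ?_ fun p _ _ => (Lu_pos p).le
      intro p hp
      rw [Finset.mem_image] at hp
      obtain ⟨a, ha, rfl⟩ := hp
      exact (Finset.mem_filter.mp ha).2
    rw [h2, h3]
    linarith
  -- the classes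
  set key : K → Finset (Pl K × Fin q × ℕ) × (A → Fin q) := fun x => (D x, σ x) with hkey
  have h1 : (E.card : ℝ) = ∑ k ∈ E.image key, ((E.filter (fun y => key y = k)).card : ℝ) := by
    exact_mod_cast Finset.card_eq_sum_card_image key E
  set G : Finset (Pl K × Fin q × ℕ) → ℝ := fun D0 =>
    C3 * Real.exp (2 * C2 + 2 * C1 / q + c * C1 + LS) *
      (Real.exp (1 / q * Λ) + Real.exp (2 / q * Λ - c * t) *
        Real.exp (-∑ v ∈ A, Real.log (Nv v))) * ∏ a ∈ D0, w' a with hG
  have hG0 : ∀ D0, 0 ≤ G D0 := by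
    intro D0
    rw [hG]
    have := Finset.prod_nonneg (s := D0) fun a _ => hw00 a
    positivity
  have h2 : ∀ k ∈ E.image key, ((E.filter (fun y => key y = k)).card : ℝ) ≤ G k.1 := by
    intro k hk
    obtain ⟨x, hx, rfl⟩ := Finset.mem_image.mp hk
    obtain ⟨g1, g2, g3, g4⟩ := hD x hx
    obtain ⟨hoff, hN, hreg, ht, _⟩ := hE x hx
    have g5 := hup x hoff (D x) g1 g2
    set Dw : ℝ := ∑ a ∈ D x, (wt a - cst Sp a) with hDw
    have hcost : ∀ a ∈ D x, cst Sp a ≤ wt a / 2 := fun a ha => (g3 a ha).2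
    have hhr := hr_aff_nonneg x
    -- the bound for the excess
    have hDw1 : 2 * Dw ≤ 1 / q * Λ + 2 * C2 := by
      have e1 : (q - 1 / 4) * hr (aff x) ≤ Λ := hreg.trans hN
      have e2 : Dw ≤ 1 / 4 * hr (aff x) + C2 := by linarith
      have e3 : 1 / 2 * hr (aff x) ≤ 1 / q * Λ := by
        have e4 : hr (aff x) * (q / 2) ≤ Λ := by nlinarith
        have e5 : 1 / (q : ℝ) * Λ = Λ / q := by ring
        rw [e5, le_div_iff₀ hq0]
        linarith
      linarith
    have hprod : Real.exp (∑ a ∈ D x, (-(cst Sp a) - η * wt a)) ≤ ∏ a ∈ D x, fwt2 Sp η a := by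
      rw [Real.exp_sum]
      refine Finset.prod_le_prod (fun a _ => (Real.exp_pos _).le) (fun a ha => ?_)
      unfold fwt2
      rw [if_pos (g3 a ha).1]
      have := Real.exp_pos (-(cst Sp a) - η * wt a)
      linarith
    have hprodw : ∏ a ∈ D x, w' a = (∏ a ∈ D x, fwt2 Sp η a) *
        ∏ a ∈ D x, (if a.1 ∈ AP then Real.exp (cst Sp a) else 1) := by
      rw [hw', Finset.prod_mul_distrib]
    have hprod2 : ∏ a ∈ D x, fwt2 Sp η a ≤ ∏ a ∈ D x, w' a :=
      Finset.prod_le_prod (fun a _ => fwt2_nonneg Sp η a) fun a _ => hw0 a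
    have hm := hmiss (D x) g1
    have hmP : 0 ≤ ∏ a ∈ D x, (if a.1 ∈ AP then Real.exp (cst Sp a) else (1 : ℝ)) :=
      Finset.prod_nonneg fun a _ => by split_ifs <;> positivity
    have hcl := class_bound α hα0 (ext (D x) (σ x)) ?_ (E.filter (fun y => key y = key x))
      ((Λ + C1 + Dw) / q) ?_ ?_ ?_
    · refine hcl.trans ?_
      rw [hsumext]
      set P0 : ℝ := Real.exp (∑ a ∈ D x, (-(cst Sp a) - η * wt a)) with hP0
      have hP00 : 0 ≤ P0 := (Real.exp_pos _).le
      have k1 : (1 : ℝ) ≤ Real.exp (1 / q * Λ + 2 * C2) * P0 := by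
        rw [hP0, ← Real.exp_add]
        refine Real.one_le_exp ?_
        have e1 : -(2 * Dw) ≤ ∑ a ∈ D x, (-(cst Sp a) - η * wt a) := by
          rw [hDw, Finset.mul_sum, ← Finset.sum_neg_distrib]
          refine Finset.sum_le_sum fun a ha => ?_
          have e2 := hcost a ha
          have e3 := hcst0 a
          have e4 : η * wt a ≤ 1 / 2 * wt a := mul_le_mul_of_nonneg_right hη1 (by linarith)
          linarith
        linarith
      have k2 : Real.exp (2 * ((Λ + C1 + Dw) / q) - (∑ a ∈ D x, wt a +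
            ∑ v ∈ R (D x), Real.log (Nv v.1))) ≤
          Real.exp (2 * C1 / q + c * C1) * Real.exp (2 / q * Λ - c * t) * P0 *
            Real.exp (-∑ v ∈ R (D x), Real.log (Nv v.1)) := by
        rw [hP0, ← Real.exp_add, ← Real.exp_add, ← Real.exp_add]
        refine Real.exp_le_exp.mpr ?_
        have e1 : 2 / q * Dw - ∑ a ∈ D x, wt a ≤
            ∑ a ∈ D x, (-(cst Sp a) - η * wt a) - c * Dw := by
          rw [hDw, Finset.mul_sum, Finset.mul_sum, ← Finset.sum_sub_distrib,
            ← Finset.sum_sub_distrib]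
          refine Finset.sum_le_sum fun a ha => ?_
          have e2 := hcost a ha
          have e3 : θ * (wt a / 2) ≤ θ * (wt a - cst Sp a) :=
            mul_le_mul_of_nonneg_left (by linarith) hθ0.le
          have e4 : 2 / (q : ℝ) = 1 - θ - c := by rw [hθ]; ring
          rw [e4, hη]
          linarith
        have e2 : c * (t - C1) ≤ c * Dw := mul_le_mul_of_nonneg_left (by linarith) hc0
        have e3 : 2 * ((Λ + C1 + Dw) / q) = 2 / q * Λ + 2 * C1 / q + 2 / q * Dw := by
          field_simp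
        rw [e3]
        linarith
      have hZ := Real.exp_pos (-∑ v ∈ A, Real.log (Nv v))
      have hX2 := Real.exp_pos (2 / q * Λ - c * t)
      have hX1 := Real.exp_pos (1 / q * Λ)
      have k2' : Real.exp (2 * ((Λ + C1 + Dw) / q) - (∑ a ∈ D x, wt a +
            ∑ v ∈ R (D x), Real.log (Nv v.1))) ≤
          Real.exp (2 * C2 + 2 * C1 / q + c * C1 + LS) * (Real.exp (2 / q * Λ - c * t) *
            Real.exp (-∑ v ∈ A, Real.log (Nv v))) * ∏ a ∈ D x, w' a := by
        calc _ ≤ Real.exp (2 * C1 / q + c * C1) * Real.exp (2 / q * Λ - c * t) * P0 *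
            Real.exp (-∑ v ∈ R (D x), Real.log (Nv v.1)) := k2
          _ ≤ Real.exp (2 * C1 / q + c * C1) * Real.exp (2 / q * Λ - c * t) *
              (∏ a ∈ D x, fwt2 Sp η a) *
              (Real.exp LS * Real.exp (-∑ v ∈ A, Real.log (Nv v)) *
              ∏ a ∈ D x, (if a.1 ∈ AP then Real.exp (cst Sp a) else 1)) := by
              refine mul_le_mul (mul_le_mul_of_nonneg_left hprod (by positivity)) hm
                (Real.exp_pos _).le ?_
              have := Finset.prod_nonneg (s := D x) fun a _ => fwt2_nonneg Sp η a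
              positivity
          _ = (Real.exp (2 * C1 / q + c * C1) * Real.exp LS) * (Real.exp (2 / q * Λ - c * t) *
            Real.exp (-∑ v ∈ A, Real.log (Nv v))) * ∏ a ∈ D x, w' a := by
              rw [hprodw]
              ring
          _ ≤ _ := by
              have hw := Finset.prod_nonneg (s := D x) fun a _ => hw00 a
              refine mul_le_mul_of_nonneg_right (mul_le_mul_of_nonneg_right ?_ (by positivity)) hw
              rw [← Real.exp_add]
              refine Real.exp_le_exp.mpr ?_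
              linarith
      have k1' : (1 : ℝ) ≤ Real.exp (2 * C2 + 2 * C1 / q + c * C1 + LS) *
          Real.exp (1 / q * Λ) * ∏ a ∈ D x, w' a := by
        calc (1 : ℝ) ≤ Real.exp (1 / q * Λ + 2 * C2) * P0 := k1
          _ ≤ (Real.exp (2 * C2 + 2 * C1 / q + c * C1 + LS) * Real.exp (1 / q * Λ)) *
              ∏ a ∈ D x, w' a := by
              refine mul_le_mul ?_ (hprod.trans hprod2) hP00 (by positivity)
              rw [← Real.exp_add]
              refine Real.exp_le_exp.mpr ?_
              have : 0 ≤ 2 * C1 / q := by positivity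
              have : 0 ≤ c * C1 := by positivity
              linarith
      rw [hG]
      simp only
      calc C3 * (1 + Real.exp (2 * ((Λ + C1 + Dw) / q) - (∑ a ∈ D x, wt a +
            ∑ v ∈ R (D x), Real.log (Nv v.1))))
          ≤ C3 * (Real.exp (2 * C2 + 2 * C1 / q + c * C1 + LS) *
            Real.exp (1 / q * Λ) * ∏ a ∈ D x, w' a +
            Real.exp (2 * C2 + 2 * C1 / q + c * C1 + LS) * (Real.exp (2 / q * Λ - c * t) *
            Real.exp (-∑ v ∈ A, Real.log (Nv v))) * ∏ a ∈ D x, w' a) :=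
            mul_le_mul_of_nonneg_left (add_le_add k1' k2') hC30
        _ = _ := by
            show _ = C3 * Real.exp (2 * C2 + 2 * C1 / q + c * C1 + LS) *
              (Real.exp (1 / q * Λ) + Real.exp (2 / q * Λ - c * t) *
                Real.exp (-∑ v ∈ A, Real.log (Nv v))) * ∏ a ∈ D x, w' a
            ring
    · -- injectivity
      intro a ha b hb hab
      rw [hext] at ha hb
      simp only [Finset.coe_union, Set.mem_union, Finset.mem_coe] at ha hb
      simp only at hab
      rcases ha with ha | ha <;> rcases hb with hb | hb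
      · exact g1 ha hb hab
      · exfalso
        rw [Finset.mem_image] at hb
        obtain ⟨v, hv, rfl⟩ := hb
        rw [hR, Finset.mem_filter] at hv
        apply hv.2
        rw [Finset.mem_image]
        exact ⟨a, ha, hab⟩
      · exfalso
        rw [Finset.mem_image] at ha
        obtain ⟨v, hv, rfl⟩ := ha
        rw [hR, Finset.mem_filter] at hv
        apply hv.2
        rw [Finset.mem_image]
        exact ⟨b, hb, hab.symm⟩
      · rw [Finset.mem_image] at ha hb
        obtain ⟨v, hv, rfl⟩ := ha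
        obtain ⟨w, hw, rfl⟩ := hb
        have : v = w := Subtype.ext (Sum.inr_injective hab)
        rw [this]
    · intro y hy
      exact (hE y (Finset.mem_filter.mp hy).1).1
    · intro y hy
      rw [Finset.mem_filter] at hy
      obtain ⟨_, _, _, f4⟩ := hD y hy.1
      have hDy : D y = D x := congrArg Prod.fst hy.2
      rw [hDy, ← hDw] at f4
      rw [le_div_iff₀ hq0]
      have := (hE y hy.1).2.1
      linarith
    · intro y hy a ha
      rw [Finset.mem_filter] at hy
      have hDy : D y = D x := congrArg Prod.fst hy.2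
      have hσy : σ y = σ x := congrArg Prod.snd hy.2
      rw [hext] at ha
      simp only [Finset.mem_union] at ha
      rcases ha with ha | ha
      · rw [← hDy] at ha
        exact (hD y hy.1).2.1 a ha
      · rw [Finset.mem_image] at ha
        obtain ⟨v, _, rfl⟩ := ha
        show ((1 : ℕ) : ℝ) * Lu (Sum.inr v.1 : Pl K) ≤ _
        rw [Nat.cast_one, one_mul, ← hσy]
        exact hσ y hy.1 v
  have h10 : ∑ D0 ∈ E.image D, ∏ a ∈ D0, w' a ≤ Real.exp (F0 + A.card * (4 * F1)) := by
    set U0 := E.biUnion D with hU0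
    calc ∑ D0 ∈ E.image D, ∏ a ∈ D0, w' a ≤ ∑ D0 ∈ U0.powerset, ∏ a ∈ D0, w' a := by
          refine Finset.sum_le_sum_of_subset_of_nonneg ?_ (fun t _ _ =>
            Finset.prod_nonneg fun a _ => hw00 a)
          intro D0 hD0
          obtain ⟨x, hx, rfl⟩ := Finset.mem_image.mp hD0
          exact Finset.mem_powerset.mpr (Finset.subset_biUnion_of_mem D hx)
      _ = ∏ a ∈ U0, (1 + w' a) := (Finset.prod_one_add _).symm
      _ ≤ ∏ a ∈ U0, Real.exp (w' a) := by
          refine Finset.prod_le_prod (fun a _ => by linarith [hw00 a]) (fun a _ => ?_)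
          linarith [Real.add_one_le_exp (w' a)]
      _ = Real.exp (∑ a ∈ U0, w' a) := (Real.exp_sum _ _).symm
      _ ≤ _ := Real.exp_le_exp.mpr (hwsum U0)
  have h11 : ∑ k ∈ E.image key, G k.1 ≤ q ^ A.card * ∑ D0 ∈ E.image D, G D0 := by
    have hsub : E.image key ⊆ E.image D ×ˢ (Finset.univ : Finset (A → Fin q)) := by
      intro k hk
      obtain ⟨x, hx, rfl⟩ := Finset.mem_image.mp hk
      rw [Finset.mem_product]
      exact ⟨Finset.mem_image_of_mem _ hx, Finset.mem_univ _⟩
    calc ∑ k ∈ E.image key, G k.1 ≤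
          ∑ k ∈ E.image D ×ˢ (Finset.univ : Finset (A → Fin q)), G k.1 :=
          Finset.sum_le_sum_of_subset_of_nonneg hsub fun k _ _ => hG0 k.1
      _ = ∑ D0 ∈ E.image D, ∑ _s : A → Fin q, G D0 := by
          rw [Finset.sum_product]
      _ = _ := by
          rw [Finset.mul_sum]
          refine Finset.sum_congr rfl fun D0 _ => ?_
          rw [Finset.sum_const, nsmul_eq_mul, Finset.card_univ, Fintype.card_fun,
            Fintype.card_fin, Fintype.card_coe]
          push_cast
          ring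
  calc (E.card : ℝ) = ∑ k ∈ E.image key, ((E.filter (fun y => key y = k)).card : ℝ) := h1
    _ ≤ ∑ k ∈ E.image key, G k.1 := Finset.sum_le_sum h2
    _ ≤ q ^ A.card * ∑ D0 ∈ E.image D, G D0 := h11
    _ = q ^ A.card * (C3 * Real.exp (2 * C2 + 2 * C1 / q + c * C1 + LS) *
      (Real.exp (1 / q * Λ) + Real.exp (2 / q * Λ - c * t) *
        Real.exp (-∑ v ∈ A, Real.log (Nv v))) * ∑ D0 ∈ E.image D, ∏ a ∈ D0, w' a) := by
        rw [hG]
        simp only
        rw [← Finset.mul_sum]
    _ ≤ q ^ A.card * (C3 * Real.exp (2 * C2 + 2 * C1 / q + c * C1 + LS) *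
      (Real.exp (1 / q * Λ) + Real.exp (2 / q * Λ - c * t) *
        Real.exp (-∑ v ∈ A, Real.log (Nv v))) * Real.exp (F0 + A.card * (4 * F1))) := by
        refine mul_le_mul_of_nonneg_left ?_ (by positivity)
        exact mul_le_mul_of_nonneg_left h10 (by positivity)
    _ = _ := by
        rw [Real.exp_add F0, Real.exp_nat_mul, mul_pow]
        ring

end Pool.Agent.R365.CV
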