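import Mathlib
import Pool.Agent.R365.CV.Pre
import Pool.Agent.R365.SH.Three
import Pool.Agent.Y728.AK.Bridge
import Pool.Agent.Y729.AH.TwMain

set_option autoImplicit false

/-!
# The sharp upper bound for the parameters with prescribed primes
-/

namespace Pool.Agent.R365.CV

open NumberField IsDedekindDomain Finset Pool.Agent.H691R3 Pool.Agent.R365.SH
open Pool.Agent.TH876.Loc
open Pool.Agent.W223.AK (H3 R3 H3_bounds)
open Pool.Agent.R365.RC (z3 z3_one z3_sum z3_div α3)
open Pool.Agent.Y729.AH (T2 mem_T2)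

variable {K : Type} [Field K] [NumberField K]

theorem z3_prod {x : K} (hPt : Pt x) : z3 x 0 * z3 x 1 * z3 x 2 ≠ 0 := by
  have e0 : z3 x 0 = x := by
    have := z3_div x
    rw [z3_one, div_one] at this
    exact this
  have e2 : z3 x 2 = -(x + 1) := by
    have := z3_sum x
    rw [e0, z3_one] at this
    linear_combination this
  rw [e0, z3_one, e2]
  exact mul_ne_zero (mul_ne_zero hPt.1 one_ne_zero) (neg_ne_zero.mpr hPt.2)

open Classical in
theorem NTc_eq_log {x : K} (hPt : Pt x) (S : Finset (Pr K)) :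
    NTc (S : Set (Pr K)) (α3 K) x = Real.log (nn (sp x \ S)) := by
  have hdpos : (0 : ℝ) < Module.finrank ℚ K := by
    exact_mod_cast Module.finrank_pos
  have g := Pool.Agent.Y728.AK.radT_eq S (z3_sum x) (z3_prod hPt)
  rw [z3_div] at g
  rw [← R3_eq_NTc (S : Set (Pr K)) S.finite_toSet ((off_iff x).mpr hPt), ← g]
  unfold Pool.Agent.Y728.radT
  rw [mul_div_cancel₀ _ hdpos.ne']
  rfl

theorem hgt_hr {x : K} (hPt : Pt x) : hr (aff x) ≤ hgt x ∧ hgt x ≤ hr (aff x) + lossK K := by
  have hdpos : (0 : ℝ) < Module.finrank ℚ K := by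
    exact_mod_cast Module.finrank_pos
  have hb := H3_bounds (x := z3 x) (by rw [z3_one]; exact one_ne_zero) (z3_sum x)
  rw [z3_div] at hb
  have hH : H3 (z3 x) = hgt x := by
    have g := Pool.Agent.Y728.AK.height3_eq (z3_sum x) (z3_prod hPt)
    rw [z3_div] at g
    rw [← g]
    unfold Pool.Agent.Y728.AK.height3
    rw [mul_div_cancel₀ _ hdpos.ne']
    rfl
  rw [hH] at hb
  exact ⟨hb.1, hb.2⟩

/-- the primes of a parameter in terms of the local heights -/
theorem sp_lam {x : K} (hPt : Pt x) {v : Pr K} (hv : v ∈ sp x) :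
    ∃ l, Real.log (Nv v) ≤ lam (Sum.inr v : Pl K) (aff x) (α3 K l) := by
  have hax := aff_ne_zero x
  have hoff := (off_iff x).mpr hPt
  have hlog := log_Nv_pos v
  obtain ⟨l, hl⟩ : ∃ l, 0 < lamA (fv v) (aff x) (α3 K l) := by
    by_contra hcon
    push Not at hcon
    rw [mem_sp hPt] at hv
    apply hv
    have hm : max (fv v (aff x).1) (fv v (aff x).2) = max (fv v x) 1 := by
      show max (fv v x) (fv v 1) = _
      rw [map_one]
    have hm1 : (1 : ℝ) ≤ max (fv v x) 1 := le_max_right _ _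
    have hm0 : (0 : ℝ) < max (fv v x) 1 := by linarith
    have hx0 : 0 < fv v x := (fv v).pos hPt.1
    have hx1 : 0 < fv v (x + 1) := (fv v).pos hPt.2
    have e0 : lamA (fv v) (aff x) (α3 K 0) = Real.log (max (fv v x) 1 / fv v x) := by
      unfold lamA
      rw [hm]
      have h1 : (aff x).1 * (α3 K 0).2 - (aff x).2 * (α3 K 0).1 = x := by
        show x * 1 - 1 * 0 = x
        ring
      have h2 : max (fv v (α3 K 0).1) (fv v (α3 K 0).2) = 1 := by
        show max (fv v 0) (fv v 1) = 1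
        rw [map_zero, map_one]
        exact max_eq_right zero_le_one
      rw [h1, h2, mul_one]
    have e1 : lamA (fv v) (aff x) (α3 K 1) = Real.log (max (fv v x) 1) := by
      unfold lamA
      rw [hm]
      have h1 : (aff x).1 * (α3 K 1).2 - (aff x).2 * (α3 K 1).1 = -1 := by
        show x * 0 - 1 * 1 = -1
        ring
      have h2 : max (fv v (α3 K 1).1) (fv v (α3 K 1).2) = 1 := by
        show max (fv v 1) (fv v 0) = 1
        rw [map_zero, map_one]
        exact max_eq_left zero_le_one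
      rw [h1, h2, mul_one, (fv v).map_neg, map_one, div_one]
    have e2 : lamA (fv v) (aff x) (α3 K 2) = Real.log (max (fv v x) 1 / fv v (x + 1)) := by
      unfold lamA
      rw [hm]
      have h1 : (aff x).1 * (α3 K 2).2 - (aff x).2 * (α3 K 2).1 = x + 1 := by
        show x * 1 - 1 * (-1) = x + 1
        ring
      have h2 : max (fv v (α3 K 2).1) (fv v (α3 K 2).2) = 1 := by
        show max (fv v (-1)) (fv v 1) = 1
        rw [map_neg_eq_map, map_one]
        exact max_self _
      rw [h1, h2, mul_one]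
    have k0 := hcon 0
    have k1 := hcon 1
    have k2 := hcon 2
    rw [e0] at k0
    rw [e1] at k1
    rw [e2] at k2
    have m1 : max (fv v x) 1 ≤ 1 := by
      by_contra h
      rw [not_le] at h
      have := Real.log_pos h
      linarith
    have m1' : max (fv v x) 1 = 1 := le_antisymm m1 hm1
    rw [m1'] at k0 k2
    have hx1' : fv v x ≤ 1 := (le_max_left _ _).trans m1
    have hx2 : fv v (x + 1) ≤ 1 := by
      refine (fv_na v x 1).trans ?_
      rw [map_one]
      exact m1
    constructor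
    · refine le_antisymm hx1' ?_
      by_contra h
      rw [not_le] at h
      have : 0 < Real.log (1 / fv v x) := Real.log_pos (by rw [lt_div_iff₀ hx0]; linarith)
      linarith
    · refine le_antisymm hx2 ?_
      by_contra h
      rw [not_le] at h
      have : 0 < Real.log (1 / fv v (x + 1)) := Real.log_pos (by rw [lt_div_iff₀ hx1]; linarith)
      linarith
  refine ⟨l, ?_⟩
  obtain ⟨m, hm⟩ := lamF_discrete v hax (α3_ne l) (hoff l)
  have hm0 : m ≠ 0 := by
    rintro rfl
    rw [hm] at hl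
    simp at hl
  have hm1 : (1 : ℝ) ≤ m := by exact_mod_cast Nat.one_le_iff_ne_zero.2 hm0
  show Real.log (Nv v) ≤ lamA (fv v) (aff x) (α3 K l)
  rw [hm]
  nlinarith

open Classical in
/-- **the parameters which are not exceptional, with prescribed primes** -/
theorem par_pre (K : Type) [Field K] [NumberField K] (c : ℝ) (hc0 : 0 ≤ c) (hc1 : c < 1 / 3) :
    ∃ C M : ℝ, 0 < C ∧ 1 ≤ M ∧ ∀ X t : ℝ, 1 ≤ X → ∀ (A : Finset (Pr K)) (F : Finset K),
      (∀ z ∈ F, Pt z ∧ nn (sp z \ T2 K) ≤ X ∧
        11 / 4 * hgt z ≤ Real.log (nn (sp z \ T2 K)) ∧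
        t ≤ 3 * hgt z - Real.log (nn (sp z \ T2 K)) ∧ A ⊆ sp z) →
      (F.card : ℝ) ≤ C * M ^ A.card * (X ^ (1 / 3 : ℝ) +
        X ^ (2 / 3 : ℝ) * Real.exp (-(c * t)) / nn A) := by
  obtain ⟨C, M, hC, hM, h⟩ := main_upper_pre (K := K) (q := 3) le_rfl (T2 K : Set (Pr K))
    (T2 K).finite_toSet (α3 K) α3_ne α3_wg c hc0 (by
      push_cast
      linarith)
  have hloss := lossK_nonneg K
  refine ⟨(C + 1) * Real.exp (3 * c * lossK K), M, by positivity, hM, ?_⟩
  intro X t hX A F hF
  have hX0 : 0 < X := by linarith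
  have hlX : 0 ≤ Real.log X := Real.log_nonneg hX
  have h1 := h (Real.log X) (t - 3 * lossK K) hlX A F (by
    intro z hz
    obtain ⟨g1, g2, g3, g4, g5⟩ := hF z hz
    obtain ⟨b1, b2⟩ := hgt_hr g1
    rw [NTc_eq_log g1]
    refine ⟨(off_iff z).mpr g1, Real.log_le_log (nn_pos _) g2, ?_, ?_, fun v hv => sp_lam g1 (g5 hv)⟩
    · push_cast
      linarith
    · push_cast
      linarith)
  have e1 : Real.exp (1 / ((3 : ℕ) : ℝ) * Real.log X) = X ^ (1 / 3 : ℝ) := by
    rw [Real.rpow_def_of_pos hX0]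
    congr 1
    push_cast
    ring
  have e2 : Real.exp (2 / ((3 : ℕ) : ℝ) * Real.log X - c * (t - 3 * lossK K)) =
      X ^ (2 / 3 : ℝ) * Real.exp (-(c * t)) * Real.exp (3 * c * lossK K) := by
    rw [Real.rpow_def_of_pos hX0, ← Real.exp_add, ← Real.exp_add]
    congr 1
    push_cast
    ring
  have e3 : Real.exp (-∑ v ∈ A, Real.log (Nv v)) = (nn A)⁻¹ := by
    rw [Real.exp_neg, Real.exp_sum]
    congr 1
    unfold nn
    exact Finset.prod_congr rfl fun v _ => Real.exp_log (Nv_pos v)
  rw [e1, e2, e3] at h1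
  have hL1 : (1 : ℝ) ≤ Real.exp (3 * c * lossK K) := Real.one_le_exp (by positivity)
  have hnA := nn_pos A
  have p1 : 0 ≤ X ^ (1 / 3 : ℝ) := by positivity
  have p2 : 0 ≤ X ^ (2 / 3 : ℝ) * Real.exp (-(c * t)) / nn A := by positivity
  have hMA : (0 : ℝ) ≤ M ^ A.card := by positivity
  calc (F.card : ℝ) ≤ _ := h1
    _ ≤ C * M ^ A.card * (Real.exp (3 * c * lossK K) * (X ^ (1 / 3 : ℝ) +
        X ^ (2 / 3 : ℝ) * Real.exp (-(c * t)) / nn A)) := by
        refine mul_le_mul_of_nonneg_left ?_ (by positivity)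
        have q1 : X ^ (1 / 3 : ℝ) ≤ Real.exp (3 * c * lossK K) * X ^ (1 / 3 : ℝ) :=
          le_mul_of_one_le_left p1 hL1
        have q2 : X ^ (2 / 3 : ℝ) * Real.exp (-(c * t)) * Real.exp (3 * c * lossK K) * (nn A)⁻¹ =
            Real.exp (3 * c * lossK K) * (X ^ (2 / 3 : ℝ) * Real.exp (-(c * t)) / nn A) := by
          rw [div_eq_mul_inv]
          ring
        rw [q2, mul_add]
        linarith
    _ ≤ (C + 1) * M ^ A.card * (Real.exp (3 * c * lossK K) * (X ^ (1 / 3 : ℝ) +
        X ^ (2 / 3 : ℝ) * Real.exp (-(c * t)) / nn A)) := by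
        refine mul_le_mul_of_nonneg_right (mul_le_mul_of_nonneg_right (by linarith) hMA) ?_
        positivity
    _ = _ := by ring

end Pool.Agent.R365.CV
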