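import Mathlib
import Pool.Agent.R365.CV.Par

set_option autoImplicit false

/-!
# Convergent sums over sets of primes, and the twists with given additive primes
-/

namespace Pool.Agent.R365.CV

open NumberField IsDedekindDomain Finset WithZero
open Pool.Agent.H691R3 (fv fv_na fv_zpow Nv nm_summable nm)
open Pool.Agent.TH876.Loc
open Pool.Agent.Y729.AH

/-- a convergent sum over finite sets of primes -/
theorem sets_conv (K : Type) [Field K] [NumberField K] (M s : ℝ) (hM : 0 ≤ M) (hs : 1 < s) :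
    ∃ C : ℝ, 0 < C ∧ ∀ S : Finset (Finset (Pr K)),
      ∑ A ∈ S, M ^ A.card * nn A ^ (-s) ≤ C := by
  classical
  refine ⟨Real.exp (∑' v : Pr K, M * (nm v : ℝ) ^ (-s)), Real.exp_pos _, fun S => ?_⟩
  have hsum : Summable (fun v : Pr K => M * (nm v : ℝ) ^ (-s)) :=
    (nm_summable (K := K) hs).mul_left M
  have h0 : ∀ v : Pr K, 0 ≤ M * (nm v : ℝ) ^ (-s) := fun v => by positivity
  have h1 : ∀ A : Finset (Pr K), M ^ A.card * nn A ^ (-s) =
      ∏ v ∈ A, (M * (nm v : ℝ) ^ (-s)) := by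
    intro A
    rw [Finset.prod_mul_distrib, Finset.prod_const]
    congr 1
    unfold nn
    rw [← Real.finsetProd_rpow A (fun v => Nv v) (fun v _ => (Nv_pos v).le)]
    rfl
  rw [Finset.sum_congr rfl fun A _ => h1 A]
  refine (sum_sets_le _ h0 (S.biUnion id) S fun s hs => Finset.subset_biUnion_of_mem id hs).trans ?_
  exact Real.exp_le_exp.mpr (hsum.sum_le_tsum _ fun v _ => h0 v)

/-- a convergent sum over pairs of finite sets of primes -/
theorem pairs_conv (K : Type) [Field K] [NumberField K] (M s s' : ℝ) (hM : 0 ≤ M) (hs : 1 < s)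
    (hs' : 1 < s') :
    ∃ C : ℝ, 0 < C ∧ ∀ S : Finset (Finset (Pr K) × Finset (Pr K)),
      ∑ p ∈ S, M ^ p.1.card * nn p.1 ^ (-s) * nn p.2 ^ (-s') ≤ C := by
  classical
  obtain ⟨C1, hC1, h1⟩ := sets_conv K M s hM hs
  obtain ⟨C2, hC2, h2⟩ := sets_conv K 1 s' zero_le_one hs'
  refine ⟨C1 * C2, by positivity, fun S => ?_⟩
  have hsub : S ⊆ S.image Prod.fst ×ˢ S.image Prod.snd := by
    intro p hp
    rw [Finset.mem_product]
    exact ⟨Finset.mem_image_of_mem _ hp, Finset.mem_image_of_mem _ hp⟩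
  have h0 : ∀ p : Finset (Pr K) × Finset (Pr K),
      0 ≤ M ^ p.1.card * nn p.1 ^ (-s) * nn p.2 ^ (-s') := by
    intro p
    have e1 := nn_pos p.1
    have e2 := nn_pos p.2
    positivity
  calc ∑ p ∈ S, M ^ p.1.card * nn p.1 ^ (-s) * nn p.2 ^ (-s') ≤
        ∑ p ∈ S.image Prod.fst ×ˢ S.image Prod.snd,
          M ^ p.1.card * nn p.1 ^ (-s) * nn p.2 ^ (-s') :=
        Finset.sum_le_sum_of_subset_of_nonneg hsub fun p _ _ => h0 p
    _ = (∑ A ∈ S.image Prod.fst, M ^ A.card * nn A ^ (-s)) *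
        ∑ A ∈ S.image Prod.snd, (1 : ℝ) ^ A.card * nn A ^ (-s') := by
        rw [Finset.sum_product, Finset.sum_mul_sum]
        refine Finset.sum_congr rfl fun A _ => Finset.sum_congr rfl fun B _ => ?_
        rw [one_pow, one_mul]
    _ ≤ C1 * C2 := by
        refine mul_le_mul (h1 _) (h2 _) ?_ hC1.le
        exact Finset.sum_nonneg fun A _ => by
          have := nn_pos A
          positivity

/-- the parity of the exponents is determined by the parameter and the additive primes -/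
theorem even_ratio {K : Type} [Field K] [NumberField K] {E E' : WeierstrassCurve K}
    {a b a' b' : K} (hE : E.Δ ≠ 0) (hE' : E'.Δ ≠ 0) (hp : Pm E a b) (hp' : Pm E' a' b')
    (hz : -(b / a) = -(b' / a')) (hA : AA E = AA E') (v : Pr K) (hv : v ∉ T2 K) :
    ∃ k : ℤ, fv v (a / a') = Nv v ^ ((2 : ℕ) * k : ℤ) := by
  rw [mem_T2, not_not] at hv
  have ha := hp.1
  have ha' := hp'.1
  have hb : b / a = b' / a' := neg_injective hz
  -- the maxima
  have hmx : ∀ {a b : K}, a ≠ 0 → max (fv v a) (fv v b) = fv v a * max 1 (fv v (b / a)) := by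
    intro a b ha
    have h1 : fv v a ≠ 0 := ((fv v).pos ha).ne'
    rw [mul_max_of_nonneg _ _ ((fv v).nonneg a), mul_one, ← map_mul, mul_div_cancel₀ _ ha]
  have hN1 : 1 < Nv v := by
    have := Pool.Agent.H691R3.two_le_Nv v
    linarith
  have hN0 : 0 < Nv v := by linarith
  obtain ⟨m, hm⟩ : ∃ m : ℤ, max 1 (fv v (b / a)) = Nv v ^ m := by
    rcases max_choice 1 (fv v (b / a)) with h | h
    · exact ⟨0, by rw [h, zpow_zero]⟩
    · obtain ⟨k, hk⟩ := fv_zpow v (div_ne_zero hp.2.1 ha)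
      exact ⟨k, by rw [h, hk]⟩
  obtain ⟨k, hk⟩ := fv_zpow v ha
  obtain ⟨k', hk'⟩ := fv_zpow v ha'
  -- semistability and parity
  have key : ∀ {F : WeierstrassCurve K} {x y : K} {j : ℤ}, Pm F x y →
      max (fv v x) (fv v y) = Nv v ^ j → (SemiAt v F ↔ Even j) := by
    intro F x y j hF hj
    rw [semi_iff v hv hF, hj]
    constructor
    · rintro ⟨u, hu, he⟩
      obtain ⟨i, hi⟩ := fv_zpow v hu
      rw [hi, ← zpow_natCast, ← zpow_mul] at he
      have h1 : j = i * ((2 : ℕ) : ℤ) := zpow_right_injective₀ hN0 hN1.ne' he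
      exact ⟨i, by rw [h1]; push_cast; ring⟩
    · rintro ⟨i, hi⟩
      obtain ⟨π, hπ, hpi⟩ := uniformizer v
      refine ⟨π ^ (-i), zpow_ne_zero _ hπ, ?_⟩
      rw [map_zpow₀, hpi]
      have e : (Ideal.absNorm v.asIdeal : ℝ) = Nv v := rfl
      rw [e, ← zpow_natCast, ← zpow_mul, inv_zpow', hi]
      congr 1
      push_cast
      ring
  have s1 : SemiAt v E ↔ Even (k + m) := key hp (by rw [hmx ha, hm, hk, ← zpow_add₀ hN0.ne'])
  have s2 : SemiAt v E' ↔ Even (k' + m) := key hp' (by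
    rw [hmx ha', ← hb, hm, hk', ← zpow_add₀ hN0.ne'])
  have hss : SemiAt v E ↔ SemiAt v E' := by
    have h1 := mem_AA hE v
    have h2 := mem_AA hE' v
    rw [hA] at h1
    tauto
  rw [s1, s2, Int.even_add, Int.even_add] at hss
  have hkk : Even k ↔ Even k' := by tauto
  have hkk' : Even (k - k') := by
    rw [Int.even_sub]
    exact hkk
  obtain ⟨i, hi⟩ := hkk'
  refine ⟨i, ?_⟩
  rw [map_div₀, hk, hk', ← zpow_sub₀ hN0.ne', hi]
  congr 1
  push_cast
  ring

open Classical in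
/-- **the number of the twists with given additive primes is bounded** -/
theorem fibre_bound (K : Type) [Field K] [NumberField K] : ∃ G : ℝ, 0 < G ∧
    ∀ (Q : Finset (Iso K)) (E : Iso K → WeierstrassCurve K) (a b : Iso K → K),
      (∀ q ∈ Q, cl (E q) = q ∧ (E q).Δ ≠ 0 ∧ Pm (E q) (a q) (b q)) →
      (∀ q ∈ Q, ∀ q' ∈ Q, -(b q / a q) = -(b q' / a q') ∧ AA (E q) = AA (E q')) →
      (Q.card : ℝ) ≤ G := by
  obtain ⟨c0, hc0, hcl⟩ := Pool.Agent.TH876.NP.classes K 2 le_rfl
  refine ⟨(c0 : ℝ) ^ ((T2 K).card + 1), by positivity, fun Q E a b hQ hsame => ?_⟩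
  rcases Q.eq_empty_or_nonempty with he | ⟨q0, hq0⟩
  · rw [he, Finset.card_empty, Nat.cast_zero]
    positivity
  obtain ⟨f, hf1, hf2⟩ := hcl (T2 K) (Q.image fun q => a q / a q0) (by
    intro r hr
    rw [Finset.mem_image] at hr
    obtain ⟨q, hq, rfl⟩ := hr
    obtain ⟨h1, h2, h3⟩ := hQ q hq
    obtain ⟨h4, h5, h6⟩ := hQ q0 hq0
    obtain ⟨h7, h8⟩ := hsame q hq q0 hq0
    refine ⟨div_ne_zero h3.1 h6.1, fun v hv => ?_⟩
    obtain ⟨k, hk⟩ := even_ratio h2 h5 h3 h6 h7 h8 v hv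
    exact ⟨k, hk⟩)
  have hle : Q.card ≤ (Finset.range (c0 ^ ((T2 K).card + 1))).card := by
    refine Finset.card_le_card_of_injOn (fun q => f (a q / a q0)) ?_ ?_
    · intro q hq
      rw [Finset.mem_coe, Finset.mem_range]
      exact hf1 _ (Finset.mem_image_of_mem _ hq)
    · intro q hq q' hq' h
      simp only at h
      obtain ⟨g, hg, hr⟩ := hf2 _ (Finset.mem_image_of_mem _ hq) _
        (Finset.mem_image_of_mem _ hq') h
      obtain ⟨h1, h2, h3⟩ := hQ q hq
      obtain ⟨h1', h2', h3'⟩ := hQ q' hq'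
      have ha0 := (hQ q0 hq0).2.2.1
      have hr' : a q = a q' * g ^ 2 := by
        field_simp at hr
        exact hr
      rw [← h1, ← h1']
      exact cl_of h3 h3' (hsame q hq q' hq').1 hg hr'
  rw [Finset.card_range] at hle
  exact_mod_cast hle

end Pool.Agent.R365.CV
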