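import Mathlib
import Pool.Agent.R365.CV.Sum

set_option autoImplicit false

/-!
# The sharp count of the isomorphism classes of elliptic curves with full two-torsion
-/

namespace Pool.Agent.R365.CV

open NumberField IsDedekindDomain Finset
open Pool.Agent.H691R3 (fv fv_na fv_zpow Nv)
open Pool.Agent.TH876.Loc
open Pool.Agent.Y729.AH

open Classical in
theorem iu_sdiff {α : Type*} (s t : Finset α) : (s ∩ t) ∪ (s \ t) = s := by
  rw [Finset.union_comm, Finset.sdiff_union_inter]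

open Classical in
/-- the conductor from below -/
theorem cond_ge {K : Type} [Field K] [NumberField K] {E : WeierstrassCurve K} {a b : K}
    (hE : E.Δ ≠ 0) (hp : Pm E a b) :
    nn (sp (-(b / a)) \ T2 K) * (nn (AA E ∩ sp (-(b / a))) * nn (AA E \ sp (-(b / a))) ^ 2) ≤
      cond E := by
  have h1 : nn (AA E) = nn (AA E ∩ sp (-(b / a))) * nn (AA E \ sp (-(b / a))) := by
    rw [← nn_union (Finset.disjoint_sdiff_inter _ _).symm, iu_sdiff]
  have h2 : nn (sp (-(b / a)) \ T2 K) * nn (AA E \ sp (-(b / a))) ≤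
      nn ((sp (-(b / a)) \ T2 K) ∪ AA E) := by
    rw [← nn_union (Finset.disjoint_of_subset_left Finset.sdiff_subset
      Finset.disjoint_sdiff)]
    refine nn_mono ?_
    intro v hv
    simp only [Finset.mem_union, Finset.mem_sdiff] at hv ⊢
    tauto
  rw [cond_eq hE hp]
  calc nn (sp (-(b / a)) \ T2 K) * (nn (AA E ∩ sp (-(b / a))) * nn (AA E \ sp (-(b / a))) ^ 2) =
      nn (sp (-(b / a)) \ T2 K) * nn (AA E \ sp (-(b / a))) * nn (AA E) := by
        rw [h1]
        ring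
    _ ≤ _ := mul_le_mul_of_nonneg_right h2 (nn_pos _).le

open Classical in
/-- **the sharp count** -/
theorem curve_tail (K : Type) [Field K] [NumberField K] (c : ℝ) (hc0 : 0 ≤ c) (hc1 : c < 1 / 3) :
    ∃ C ν : ℝ, 0 < C ∧ 0 < ν ∧ ∀ X t : ℝ, 1 ≤ X → ∀ Q : Finset (Iso K),
      (∀ q ∈ Q, ∃ (E : WeierstrassCurve K) (a b : K), cl E = q ∧ E.Δ ≠ 0 ∧ Pm E a b ∧
        cond E ≤ X ∧
        t ≤ 3 * hgt (-(b / a)) - Real.log (nn (sp (-(b / a)) \ T2 K)) +
          2 * Real.log (nn (AA E ∩ sp (-(b / a)))) + Real.log (nn (AA E \ sp (-(b / a))))) →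
      (Q.card : ℝ) ≤ C * (Real.exp (-(c * t)) + X ^ (-ν)) * X ^ (2 / 3 : ℝ) := by
  obtain ⟨ν1, C1, hν1, hC1, hexc⟩ := exc_upper K (M := 4 / 11) (by norm_num)
  obtain ⟨C2, hC2, hsm⟩ := small_upper K (1 / 8) (by norm_num) (by norm_num)
  obtain ⟨C3, M, hC3, hM, hpar⟩ := par_pre K c hc0 hc1
  obtain ⟨G, hG, hfib⟩ := fibre_bound K
  obtain ⟨s, hs⟩ : ∃ s : ℝ, s = 5 / 3 - 2 * c := ⟨_, rfl⟩
  obtain ⟨s', hs'⟩ : ∃ s' : ℝ, s' = 4 / 3 - c := ⟨_, rfl⟩
  have hM0 : (0 : ℝ) ≤ M := by linarith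
  obtain ⟨C4, hC4, hpc⟩ := pairs_conv K M s s' hM0 (by rw [hs]; linarith) (by rw [hs']; linarith)
  refine ⟨C1 + C2 + G * C3 * C4, min ν1 (1 / 96), by positivity, lt_min hν1 (by norm_num), ?_⟩
  intro X t hX Q hQ
  have hX0 : 0 < X := by linarith
  have hlX : 0 ≤ Real.log X := Real.log_nonneg hX
  have hne : Nonempty (WeierstrassCurve K) := ⟨EE 1 1⟩
  choose! E a b hE hΔ hPm hcond ht using hQ
  obtain ⟨z, hz⟩ : ∃ z : Iso K → K, z = fun q => -(b q / a q) := ⟨_, rfl⟩
  obtain ⟨A1, hA1⟩ : ∃ A1 : Iso K → Finset (Pr K), A1 = fun q => AA (E q) ∩ sp (z q) := ⟨_, rfl⟩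
  obtain ⟨A2, hA2⟩ : ∃ A2 : Iso K → Finset (Pr K), A2 = fun q => AA (E q) \ sp (z q) := ⟨_, rfl⟩
  set Q1 := Q.filter fun q => 4 / 11 * Real.log (nn (sp (z q) \ T2 K)) ≤ hgt (z q) with hQ1
  set Q2 := Q.filter fun q => nn (sp (z q) \ T2 K) ≤ X ^ (1 - 1 / 8 : ℝ) with hQ2
  set Q3 := Q.filter fun q => ¬ (4 / 11 * Real.log (nn (sp (z q) \ T2 K)) ≤ hgt (z q)) ∧
    ¬ (nn (sp (z q) \ T2 K) ≤ X ^ (1 - 1 / 8 : ℝ)) with hQ3
  have hsplit : (Q.card : ℝ) ≤ Q1.card + Q2.card + Q3.card := by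
    have h1 : Q ⊆ Q1 ∪ Q2 ∪ Q3 := by
      intro q hq
      rw [Finset.mem_union, Finset.mem_union, hQ1, hQ2, hQ3, Finset.mem_filter,
        Finset.mem_filter, Finset.mem_filter]
      tauto
    have h2 := (Finset.card_le_card h1).trans
      ((Finset.card_union_le _ _).trans (Nat.add_le_add_right (Finset.card_union_le _ _) _))
    exact_mod_cast h2
  have hPt : ∀ q ∈ Q, Pt (z q) := by
    intro q hq
    rw [hz]
    exact (sp_iff (hPm q hq).1 (hPm q hq).2.1 (hPm q hq).2.2.1).1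
  -- the exceptional parameters
  have h1 : (Q1.card : ℝ) ≤ C1 * X ^ (2 / 3 - ν1) := by
    refine hexc X hX Q1 fun q hq => ?_
    rw [hQ1, Finset.mem_filter] at hq
    obtain ⟨hq, hq2⟩ := hq
    refine ⟨E q, a q, b q, hE q hq, hΔ q hq, hPm q hq, hcond q hq, fun s hs => ?_⟩
    rw [hz] at hq2
    refine le_trans ?_ hq2
    refine mul_le_mul_of_nonneg_left (Real.log_le_log (nn_pos _) (nn_mono fun v hv => ?_))
      (by norm_num)
    rw [Finset.mem_sdiff]
    exact hs v hv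
  -- the parameters with small radical
  have h2 : (Q2.card : ℝ) ≤ C2 * X ^ (2 / 3 - 1 / 8 / 12 : ℝ) := by
    refine hsm X hX Q2 fun q hq => ?_
    rw [hQ2, Finset.mem_filter] at hq
    obtain ⟨hq, hq2⟩ := hq
    refine ⟨E q, a q, b q, hE q hq, hΔ q hq, hPm q hq, hcond q hq, (mem_ZZ _).2 ⟨?_, ?_⟩⟩
    · have := hPt q hq
      rw [hz] at this
      exact this
    · rw [hz] at hq2
      convert hq2
  -- the other parameters
  have hcg : ∀ q ∈ Q, nn (sp (z q) \ T2 K) * (nn (A1 q) * nn (A2 q) ^ 2) ≤ X := by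
    intro q hq
    refine le_trans ?_ (hcond q hq)
    rw [hA1, hA2, hz]
    exact cond_ge (hΔ q hq) (hPm q hq)
  set S := Q3.image fun q => (A1 q, A2 q) with hS
  have h3 : (Q3.card : ℝ) ≤ G * C3 * C4 *
      (X ^ (7 / 12 : ℝ) + X ^ (2 / 3 : ℝ) * Real.exp (-(c * t))) := by
    have e1 : (Q3.card : ℝ) =
        ∑ p ∈ S, ((Q3.filter fun q => (A1 q, A2 q) = p).card : ℝ) := by
      exact_mod_cast Finset.card_eq_sum_card_image (fun q => (A1 q, A2 q)) Q3
    have e2 : ∀ p ∈ S, ((Q3.filter fun q => (A1 q, A2 q) = p).card : ℝ) ≤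
        G * C3 * (X ^ (7 / 12 : ℝ) + X ^ (2 / 3 : ℝ) * Real.exp (-(c * t))) *
          (M ^ p.1.card * nn p.1 ^ (-s) * nn p.2 ^ (-s')) := by
      intro p hp
      obtain ⟨q0, hq0, rfl⟩ := Finset.mem_image.mp hp
      set P := Q3.filter fun q => (A1 q, A2 q) = (A1 q0, A2 q0) with hP
      have hPQ : ∀ q ∈ P, q ∈ Q ∧ ¬ (4 / 11 * Real.log (nn (sp (z q) \ T2 K)) ≤ hgt (z q)) ∧
          ¬ (nn (sp (z q) \ T2 K) ≤ X ^ (1 - 1 / 8 : ℝ)) ∧ A1 q = A1 q0 ∧ A2 q = A2 q0 := by
        intro q hq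
        rw [hP, Finset.mem_filter, hQ3, Finset.mem_filter, Prod.mk.injEq] at hq
        exact ⟨hq.1.1, hq.1.2.1, hq.1.2.2, hq.2.1, hq.2.2⟩
      obtain ⟨u, hu⟩ : ∃ u, u = nn (A1 q0) := ⟨_, rfl⟩
      obtain ⟨w, hw⟩ : ∃ w, w = nn (A2 q0) := ⟨_, rfl⟩
      have hu1 : 1 ≤ u := by rw [hu]; exact one_le_nn _
      have hw1 : 1 ≤ w := by rw [hw]; exact one_le_nn _
      have hu0 : 0 < u := by linarith
      have hw0 : 0 < w := by linarith
      have hlu : 0 ≤ Real.log u := Real.log_nonneg hu1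
      have hlw : 0 ≤ Real.log w := Real.log_nonneg hw1
      have hq0Q : q0 ∈ Q := by
        rw [hQ3, Finset.mem_filter] at hq0
        exact hq0.1
      have hq0s : X ^ (1 - 1 / 8 : ℝ) < nn (sp (z q0) \ T2 K) := by
        rw [hQ3, Finset.mem_filter] at hq0
        exact not_le.1 hq0.2.2
      obtain ⟨Y, hY⟩ : ∃ Y, Y = X / (u * w ^ 2) := ⟨_, rfl⟩
      have huw : 0 < u * w ^ 2 := by positivity
      have hYle : ∀ q ∈ P, nn (sp (z q) \ T2 K) ≤ Y := by
        intro q hq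
        obtain ⟨g1, g2, g3, g4, g5⟩ := hPQ q hq
        have := hcg q g1
        rw [g4, g5, ← hu, ← hw] at this
        rw [hY, le_div_iff₀ huw]
        exact this
      have hq0P : q0 ∈ P := by
        rw [hP, Finset.mem_filter]
        exact ⟨hq0, rfl⟩
      have hY1 : 1 ≤ Y := (one_le_nn _).trans (hYle q0 hq0P)
      have hY0 : 0 < Y := by linarith
      -- the logarithm
      have hlY : Real.log Y = Real.log X - Real.log u - 2 * Real.log w := by
        rw [hY, Real.log_div hX0.ne' huw.ne', Real.log_mul hu0.ne' (by positivity), Real.log_pow]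
        push_cast
        ring
      have hsmall : Real.log u + 2 * Real.log w ≤ Real.log X / 8 := by
        have e3 : Real.log (X ^ (1 - 1 / 8 : ℝ)) ≤ Real.log Y :=
          Real.log_le_log (by positivity) (hq0s.le.trans (hYle q0 hq0P))
        rw [Real.log_rpow hX0, hlY] at e3
        linarith
      -- the fibres of the parameter
      have f1 : (P.card : ℝ) ≤ G * (P.image z).card := by
        rw [Finset.card_eq_sum_card_image z P]
        push_cast
        calc ∑ y ∈ P.image z, ((P.filter fun q => z q = y).card : ℝ) ≤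
              ∑ _y ∈ P.image z, G := by
              refine Finset.sum_le_sum fun y hy => ?_
              refine hfib (P.filter fun q => z q = y) E a b ?_ ?_
              · intro q hq
                have := (hPQ q (Finset.mem_filter.mp hq).1).1
                exact ⟨hE q this, hΔ q this, hPm q this⟩
              · intro q hq q' hq'
                rw [Finset.mem_filter] at hq hq'
                obtain ⟨_, _, _, g4, g5⟩ := hPQ q hq.1
                obtain ⟨_, _, _, g4', g5'⟩ := hPQ q' hq'.1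
                have hzz : z q = z q' := hq.2.trans hq'.2.symm
                refine ⟨?_, ?_⟩
                · have := hzz
                  rw [hz] at this
                  exact this
                · have k1 : AA (E q) = A1 q ∪ A2 q := by
                    rw [hA1, hA2]
                    exact (iu_sdiff _ _).symm
                  have k2 : AA (E q') = A1 q' ∪ A2 q' := by
                    rw [hA1, hA2]
                    exact (iu_sdiff _ _).symm
                  rw [k1, k2, g4, g5, g4', g5']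
          _ = _ := by
              rw [Finset.sum_const, nsmul_eq_mul, mul_comm]
      have f2 := hpar Y (t - 2 * Real.log u - Real.log w) hY1 (A1 q0) (P.image z) (by
        intro y hy
        obtain ⟨q, hq, rfl⟩ := Finset.mem_image.mp hy
        obtain ⟨g1, g2, g3, g4, g5⟩ := hPQ q hq
        refine ⟨hPt q g1, ?_, ?_, ?_, ?_⟩
        · exact hYle q hq
        · rw [not_le] at g2
          linarith
        · have k := ht q g1
          have k1 : AA (E q) ∩ sp (-(b q / a q)) = A1 q := by rw [hA1, hz]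
          have k2 : AA (E q) \ sp (-(b q / a q)) = A2 q := by rw [hA2, hz]
          have k3 : -(b q / a q) = z q := by rw [hz]
          rw [k1, k2, k3, g4, g5, ← hu, ← hw] at k
          linarith
        · rw [← g4, hA1]
          exact Finset.inter_subset_right)
      have f3 : Y ^ (1 / 3 : ℝ) ≤ X ^ (7 / 12 : ℝ) * (u ^ (-s) * w ^ (-s')) := by
        rw [Real.rpow_def_of_pos hY0, Real.rpow_def_of_pos hX0, Real.rpow_def_of_pos hu0,
          Real.rpow_def_of_pos hw0, ← Real.exp_add, ← Real.exp_add]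
        refine Real.exp_le_exp.mpr ?_
        rw [hlY, hs, hs']
        nlinarith [mul_nonneg hc0 hlu, mul_nonneg hc0 hlw]
      have f4 : Y ^ (2 / 3 : ℝ) * Real.exp (-(c * (t - 2 * Real.log u - Real.log w))) / u =
          X ^ (2 / 3 : ℝ) * Real.exp (-(c * t)) * (u ^ (-s) * w ^ (-s')) := by
        have e3 : u = Real.exp (Real.log u) := (Real.exp_log hu0).symm
        have e4 : Y ^ (2 / 3 : ℝ) * Real.exp (-(c * (t - 2 * Real.log u - Real.log w))) / u =
            Y ^ (2 / 3 : ℝ) * Real.exp (-(c * (t - 2 * Real.log u - Real.log w))) *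
              Real.exp (-Real.log u) := by
          rw [Real.exp_neg (Real.log u), Real.exp_log hu0, div_eq_mul_inv]
        rw [e4, Real.rpow_def_of_pos hY0, Real.rpow_def_of_pos hX0, Real.rpow_def_of_pos hu0,
          Real.rpow_def_of_pos hw0, ← Real.exp_add, ← Real.exp_add, ← Real.exp_add,
          ← Real.exp_add, ← Real.exp_add, hlY, hs, hs']
        congr 1
        ring
      have f5 : (P.card : ℝ) ≤ G * (C3 * M ^ (A1 q0).card *
          (X ^ (7 / 12 : ℝ) * (u ^ (-s) * w ^ (-s')) +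
            X ^ (2 / 3 : ℝ) * Real.exp (-(c * t)) * (u ^ (-s) * w ^ (-s')))) := by
        refine f1.trans (mul_le_mul_of_nonneg_left ?_ hG.le)
        refine f2.trans (mul_le_mul_of_nonneg_left ?_ (by positivity))
        rw [← hu, f4]
        linarith
      show (P.card : ℝ) ≤ G * C3 * (X ^ (7 / 12 : ℝ) + X ^ (2 / 3 : ℝ) * Real.exp (-(c * t))) *
          (M ^ (A1 q0).card * nn (A1 q0) ^ (-s) * nn (A2 q0) ^ (-s'))
      rw [← hu, ← hw]
      refine f5.trans (le_of_eq ?_)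
      ring
    rw [e1]
    refine (Finset.sum_le_sum e2).trans ?_
    rw [← Finset.mul_sum]
    have e3 := hpc S
    have e4 : 0 ≤ G * C3 * (X ^ (7 / 12 : ℝ) + X ^ (2 / 3 : ℝ) * Real.exp (-(c * t))) := by
      positivity
    refine (mul_le_mul_of_nonneg_left e3 e4).trans (le_of_eq ?_)
    ring
  -- the sum
  obtain ⟨ν, hν⟩ : ∃ ν, ν = min ν1 (1 / 96) := ⟨_, rfl⟩
  rw [← hν]
  have hν2 : ν ≤ ν1 := by rw [hν]; exact min_le_left _ _
  have hν3 : ν ≤ 1 / 96 := by rw [hν]; exact min_le_right _ _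
  have e1 : X ^ (2 / 3 - ν1) ≤ X ^ (-ν) * X ^ (2 / 3 : ℝ) := by
    rw [← Real.rpow_add hX0]
    exact Real.rpow_le_rpow_of_exponent_le hX (by linarith)
  have e2 : X ^ (2 / 3 - 1 / 8 / 12 : ℝ) ≤ X ^ (-ν) * X ^ (2 / 3 : ℝ) := by
    rw [← Real.rpow_add hX0]
    exact Real.rpow_le_rpow_of_exponent_le hX (by linarith)
  have e3 : X ^ (7 / 12 : ℝ) ≤ X ^ (-ν) * X ^ (2 / 3 : ℝ) := by
    rw [← Real.rpow_add hX0]
    exact Real.rpow_le_rpow_of_exponent_le hX (by linarith)
  have e4 : 0 ≤ X ^ (2 / 3 : ℝ) * Real.exp (-(c * t)) := by positivity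
  have e5 : 0 ≤ X ^ (-ν) * X ^ (2 / 3 : ℝ) := by positivity
  have g1 := h1.trans (mul_le_mul_of_nonneg_left e1 hC1.le)
  have g2 := h2.trans (mul_le_mul_of_nonneg_left e2 hC2.le)
  have hGC : 0 ≤ G * C3 * C4 := by positivity
  have g3 := h3.trans (mul_le_mul_of_nonneg_left
    (add_le_add_left e3 (X ^ (2 / 3 : ℝ) * Real.exp (-(c * t)))) hGC)
  have g4 : 0 ≤ C1 * (X ^ (2 / 3 : ℝ) * Real.exp (-(c * t))) := by positivity
  have g5 : 0 ≤ C2 * (X ^ (2 / 3 : ℝ) * Real.exp (-(c * t))) := by positivity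
  calc (Q.card : ℝ) ≤ Q1.card + Q2.card + Q3.card := hsplit
    _ ≤ C1 * (X ^ (-ν) * X ^ (2 / 3 : ℝ)) + C2 * (X ^ (-ν) * X ^ (2 / 3 : ℝ)) +
        G * C3 * C4 * (X ^ (-ν) * X ^ (2 / 3 : ℝ) + X ^ (2 / 3 : ℝ) * Real.exp (-(c * t))) :=
        add_le_add (add_le_add g1 g2) g3
    _ ≤ (C1 + C2 + G * C3 * C4) * (X ^ (-ν) * X ^ (2 / 3 : ℝ) +
        X ^ (2 / 3 : ℝ) * Real.exp (-(c * t))) := by
        nlinarith
    _ = _ := by ring

end Pool.Agent.R365.CV
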