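import Mathlib
import Pool.Agent.R365.CV.Tail

set_option autoImplicit false

/-!
# The finite part of the height of the invariant
-/

namespace Pool.Agent.R365.CV

open NumberField IsDedekindDomain Finset
open Pool.Agent.H691R3 (fv fv_na fv_zpow Nv)
open Pool.Agent.TH876.Loc
open Pool.Agent.Y729.AH
open Pool.Agent.Y729.FW (lp lp_nonneg lp_support)

variable {K : Type} [Field K] [NumberField K]

/-- the local height of the invariant outside two -/
theorem lp_three (v : Pr K) (h2 : fv v 2 = 1) {z : K} (hz : Pt z) :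
    2 * Real.log (fv v z) ≤ lp (fv v) (JJ z) ∧ -(2 * Real.log (fv v z)) ≤ lp (fv v) (JJ z) ∧
      -(2 * Real.log (fv v (z + 1))) ≤ lp (fv v) (JJ z) := by
  have hna := fv_na v
  have hA : 0 < fv v z := (fv v).pos hz.1
  have hB : 0 < fv v (z + 1) := (fv v).pos hz.2
  have h256 : fv v 256 = 1 := by
    have : (256 : K) = 2 ^ 8 := by norm_num
    rw [this, map_pow, h2, one_pow]
  have hJ : fv v (JJ z) = fv v (z ^ 2 + z + 1) ^ 3 / (fv v z ^ 2 * fv v (z + 1) ^ 2) := by
    unfold JJ
    have e : (1 : K) + z = z + 1 := by ring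
    rw [e, map_div₀, map_mul, map_mul, map_pow, map_pow, map_pow, h256, one_mul]
  have h0 := lp_nonneg (fv v) (JJ z)
  have hlp : Real.log (fv v (JJ z)) ≤ lp (fv v) (JJ z) ∨ fv v (JJ z) = 0 := by
    by_cases h : fv v (JJ z) = 0
    · exact Or.inr h
    · left
      unfold Pool.Agent.Y729.FW.lp
      exact Real.log_le_log (lt_of_le_of_ne ((fv v).nonneg _) (Ne.symm h)) (le_max_left _ _)
  have hform : z ^ 2 + z + 1 = z * (z + 1) + 1 := by ring
  have hprod : fv v (z * (z + 1)) = fv v z * fv v (z + 1) := map_mul _ _ _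
  rcases lt_trichotomy (fv v z) 1 with h | h | h
  · have hB1 : fv v (z + 1) = 1 := by
      have := na_lt (fv v) hna (a := z) (b := 1) (by rw [map_one]; exact h)
      rw [this, map_one]
    have hQ : fv v (z ^ 2 + z + 1) = 1 := by
      rw [hform]
      have := na_lt (fv v) hna (a := z * (z + 1)) (b := 1) (by
        rw [map_one, hprod, hB1, mul_one]
        exact h)
      rw [this, map_one]
    have hJ1 : fv v (JJ z) = (fv v z ^ 2)⁻¹ := by
      rw [hJ, hQ, hB1]
      simp
    have hl : Real.log (fv v (JJ z)) = -(2 * Real.log (fv v z)) := by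
      rw [hJ1, Real.log_inv, Real.log_pow]
      push_cast
      ring
    have hne : fv v (JJ z) ≠ 0 := by
      rw [hJ1]
      positivity
    have k := hlp.resolve_right hne
    rw [hl] at k
    have hneg : Real.log (fv v z) < 0 := Real.log_neg hA h
    refine ⟨by linarith, k, ?_⟩
    rw [hB1, Real.log_one]
    linarith
  · refine ⟨by rw [h, Real.log_one]; linarith, by rw [h, Real.log_one]; linarith, ?_⟩
    rcases lt_or_ge (fv v (z + 1)) 1 with hB1 | hB1
    · have hQ : fv v (z ^ 2 + z + 1) = 1 := by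
        rw [hform]
        have := na_lt (fv v) hna (a := z * (z + 1)) (b := 1) (by
          rw [map_one, hprod, h, one_mul]
          exact hB1)
        rw [this, map_one]
      have hJ1 : fv v (JJ z) = (fv v (z + 1) ^ 2)⁻¹ := by
        rw [hJ, hQ, h]
        simp
      have hl : Real.log (fv v (JJ z)) = -(2 * Real.log (fv v (z + 1))) := by
        rw [hJ1, Real.log_inv, Real.log_pow]
        push_cast
        ring
      have hne : fv v (JJ z) ≠ 0 := by
        rw [hJ1]
        positivity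
      have k := hlp.resolve_right hne
      rw [hl] at k
      exact k
    · have := Real.log_nonneg hB1
      linarith
  · have hB1 : fv v (z + 1) = fv v z := by
      have := na_lt (fv v) hna (a := 1) (b := z) (by rw [map_one]; exact h)
      rw [add_comm, this]
    have hQ : fv v (z ^ 2 + z + 1) = fv v z ^ 2 := by
      rw [hform, add_comm]
      have := na_lt (fv v) hna (a := 1) (b := z * (z + 1)) (by
        rw [map_one, hprod, hB1]
        nlinarith)
      rw [this, hprod, hB1, sq]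
    have hJ1 : fv v (JJ z) = fv v z ^ 2 := by
      rw [hJ, hQ, hB1]
      field_simp
    have hl : Real.log (fv v (JJ z)) = 2 * Real.log (fv v z) := by
      rw [hJ1, Real.log_pow]
      push_cast
      ring
    have hne : fv v (JJ z) ≠ 0 := by
      rw [hJ1]
      positivity
    have k := hlp.resolve_right hne
    rw [hl] at k
    have hpos : 0 < Real.log (fv v z) := Real.log_pos h
    refine ⟨k, by linarith, ?_⟩
    rw [hB1]
    linarith

/-- a value different from one is far from one -/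
theorem log_far (v : Pr K) {x : K} (hx : x ≠ 0) (h : fv v x ≠ 1) :
    Real.log (Nv v) ≤ |Real.log (fv v x)| := by
  obtain ⟨k, hk⟩ := fv_zpow v hx
  have hN : 0 < Real.log (Nv v) := Pool.Agent.H691R3.log_Nv_pos v
  have hk0 : k ≠ 0 := by
    rintro rfl
    apply h
    rw [hk, zpow_zero]
  have h1 : (1 : ℝ) ≤ |(k : ℝ)| := by
    have : (1 : ℤ) ≤ |k| := Int.one_le_abs hk0
    exact_mod_cast this
  rw [hk, Real.log_zpow, abs_mul, abs_of_pos hN]
  nlinarith

theorem lp_sp (v : Pr K) (h2 : fv v 2 = 1) {z : K} (hz : Pt z) (hv : v ∈ sp z) :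
    2 * Real.log (Nv v) ≤ lp (fv v) (JJ z) := by
  obtain ⟨k1, k2, k3⟩ := lp_three v h2 hz
  by_cases h : fv v z = 1
  · have h' : fv v (z + 1) ≠ 1 := by
      intro h'
      exact (mem_sp hz v).1 hv ⟨h, h'⟩
    have h3 := log_far v hz.2 h'
    have h4 : fv v (z + 1) ≤ 1 := by
      refine (fv_na v z 1).trans ?_
      rw [map_one, h, max_self]
    have h5 : Real.log (fv v (z + 1)) ≤ 0 := Real.log_nonpos ((fv v).nonneg _) h4
    rw [abs_of_nonpos h5] at h3
    linarith
  · have h3 := log_far v hz.1 h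
    rcases abs_choice (Real.log (fv v z)) with h4 | h4
    · rw [h4] at h3
      linarith
    · rw [h4] at h3
      linarith

open Classical in
/-- the finite part of the height of the invariant -/
theorem sum_lp_ge {z : K} (hz : Pt z) (W : Finset (Pr K)) (g : Pr K → ℝ)
    (hg : ∀ v ∈ W, 2 * g v ≤ lp (fv v) (JJ z)) :
    2 * Real.log (nn (sp z \ T2 K)) + 2 * ∑ v ∈ W, (g v - Real.log (Nv v)) ≤
      ∑ᶠ v : HeightOneSpectrum (𝓞 K), lp (fv v) (JJ z) := by
  obtain ⟨U, hU⟩ : ∃ U : Finset (Pr K), U = (lp_support (JJ z)).toFinset ∪ W ∪ sp z := ⟨_, rfl⟩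
  have s1 : ∑ᶠ v : HeightOneSpectrum (𝓞 K), lp (fv v) (JJ z) = ∑ v ∈ U, lp (fv v) (JJ z) := by
    refine finsum_eq_sum_of_support_subset _ fun v hv => ?_
    rw [Finset.mem_coe, hU]
    simp only [Finset.mem_union, Set.Finite.mem_toFinset]
    exact Or.inl (Or.inl hv)
  have hWU : W ⊆ U := by
    intro v hv
    rw [hU]
    simp only [Finset.mem_union]
    exact Or.inl (Or.inr hv)
  have hsU : sp z \ T2 K ⊆ U := by
    intro v hv
    rw [hU]
    simp only [Finset.mem_union]
    exact Or.inr (Finset.mem_sdiff.mp hv).1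
  have s2 : 2 * Real.log (nn (sp z \ T2 K)) =
      ∑ v ∈ U, if v ∈ sp z \ T2 K then 2 * Real.log (Nv v) else 0 := by
    rw [Finset.sum_ite_mem, Finset.inter_eq_right.2 hsU, log_nn, Finset.mul_sum]
    rfl
  have s3 : 2 * ∑ v ∈ W, (g v - Real.log (Nv v)) =
      ∑ v ∈ U, if v ∈ W then 2 * (g v - Real.log (Nv v)) else 0 := by
    rw [Finset.sum_ite_mem, Finset.inter_eq_right.2 hWU, Finset.mul_sum]
  rw [s1, s2, s3, ← Finset.sum_add_distrib]
  refine Finset.sum_le_sum fun v _ => ?_
  have h0 := lp_nonneg (fv v) (JJ z)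
  have hN : 0 < Real.log (Nv v) := Pool.Agent.H691R3.log_Nv_pos v
  by_cases hv1 : v ∈ W
  · rw [if_pos hv1]
    have h1 := hg v hv1
    split_ifs <;> linarith
  · rw [if_neg hv1, add_zero]
    split_ifs with hv2
    · rw [Finset.mem_sdiff, mem_T2, not_not] at hv2
      exact lp_sp v hv2.2 hz hv2.1
    · exact h0

theorem sum_lp_le : ∃ c : ℝ, 0 ≤ c ∧ ∀ (K : Type) [Field K] [NumberField K] (z : K), Pt z →
    ∑ᶠ v : HeightOneSpectrum (𝓞 K), lp (fv v) (JJ z) ≤
      6 * Height.logHeight₁ z + c * Module.finrank ℚ K := by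
  obtain ⟨c, hc, h⟩ := Pool.Agent.Y729.FW.six_height
  refine ⟨c, hc, fun K _ _ z hz => ?_⟩
  have hl0 : -z ≠ 0 := neg_ne_zero.2 hz.1
  have hl1 : -z ≠ 1 := by
    intro h
    apply hz.2
    linear_combination -h
  have h1 : (1 : K) + z ≠ 0 := by
    rw [add_comm]
    exact hz.2
  have hz0 := hz.1
  have k := (h K (JJ z) (-z) hl0 hl1 (by
    unfold JJ
    field_simp
    ring)).2
  rw [lh_neg, Pool.Agent.Y729.FW.lh_eq] at k
  have h2 : 0 ≤ ∑ w : InfinitePlace K, (w.mult : ℝ) * lp w.1 (JJ z) :=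
    Finset.sum_nonneg fun w _ => mul_nonneg (Nat.cast_nonneg _) (lp_nonneg _ _)
  linarith

/-- the height of the Weil restriction from below -/
theorem hres_ge : ∃ c : ℝ, 0 ≤ c ∧ ∀ (K L : Type) [Field K] [NumberField K] [Field L]
    [NumberField L] [Algebra K L] (E : WeierstrassCurve L) (a b : L)
    (τ : InfinitePlace L → UpperHalfPlane), E.Δ ≠ 0 → Pm E a b →
    ∑ᶠ v : HeightOneSpectrum (𝓞 L), lp (fv v) (E.c₄ ^ 3 / E.Δ) + 6 * Real.log (nn (AA E)) -
      c * Module.finrank ℚ L ≤ 12 * (Module.finrank ℚ K : ℝ) * Pool.Agent.Y729.AE.hRes K E τ := by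
  obtain ⟨c, hc⟩ := Pool.Agent.TH876.FH.ana.1 1 one_pos
  refine ⟨|c|, abs_nonneg c, ?_⟩
  intro K L _ _ _ _ _ E a b τ hE hp
  obtain ⟨h1, -⟩ := disc_sum hE hp
  have h2 := Pool.Agent.Y729.AE.disc_ge K L
  rw [Pool.Agent.Y729.AE.hRes_formula]
  have h3 : -(|c| * Module.finrank ℚ L) ≤
      ∑ w : InfinitePlace L, (w.mult : ℝ) * Pool.Agent.TH876.FH.arch (τ w) := by
    rw [← Pool.Agent.Y729.FW.sum_mult, Finset.mul_sum, ← Finset.sum_neg_distrib]
    refine Finset.sum_le_sum fun w _ => ?_
    have h4 := hc (τ w)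
    have h5 : 0 ≤ Real.log (max ‖Pool.Agent.TH876.FH.jInv (τ w)‖ 1) :=
      Real.log_nonneg (le_max_right _ _)
    have h6 : -|c| ≤ Pool.Agent.TH876.FH.arch (τ w) := by
      have := le_abs_self c
      have := abs_nonneg c
      by_contra hcon
      nlinarith
    have h7 : (0 : ℝ) ≤ (w.mult : ℝ) := Nat.cast_nonneg _
    nlinarith
  linarith

end Pool.Agent.R365.CV
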