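import Mathlib
import Pool.Agent.R365.CV.Low1
import Pool.Agent.W221.ExcLow5

set_option autoImplicit false

/-!
# Many parameters with a large excess
-/

namespace Pool.Agent.R365.CV

open NumberField IsDedekindDomain Finset Height
open Pool.Agent.H691R3 (fv fv_na fv_zpow Nv)
open Pool.Agent.TH876.Loc
open Pool.Agent.Y729.AH
open Pool.Agent.Y729.FW (lp lp_nonneg lp_support)
open Pool.Agent.W221.Exc (yy yy_inj Vp mem_Vp sum_Vp fv_eq_one_of_coprime exists_shift
  exists_pow_window mob_height mulHeight₁_ratio log_yy_left log_yy_right)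

/-- many parameters with excess at least `τ` -/
theorem family (K : Type) [Field K] [NumberField K] : ∃ c C R0 : ℝ, 0 < c ∧ 0 ≤ C ∧ 1 ≤ R0 ∧
    ∀ τ ρ : ℝ, 0 ≤ τ → R0 ≤ ρ → ∃ F : Finset K,
      (∀ x ∈ F, Pt x ∧ 2 * Real.log (nn (@sdiff _ (@Finset.instSDiff _ (Classical.decEq _))
          (sp x) (T2 K))) + 2 * τ ≤
          ∑ᶠ v : HeightOneSpectrum (𝓞 K), lp (fv v) (JJ x) ∧
        Height.logHeight₁ x ≤ Real.log ρ + τ / 2 + C) ∧
      c * ρ ^ 2 ≤ F.card := by
  classical
  set d := Module.finrank ℚ K with hd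
  have hd0 : 0 < d := Module.finrank_pos
  have hdR : (0 : ℝ) < d := by exact_mod_cast hd0
  obtain ⟨p, hpge, hp⟩ := Nat.exists_infinite_primes (2 * d + 2)
  obtain ⟨l, hlge, hl⟩ := Nat.exists_infinite_primes (p + 1)
  have hpl : p ≠ l := by omega
  have hmob : ∀ st : ℕ × ℕ, ∃ C : ℝ, 0 < C ∧ ∀ y : K,
      mulHeight₁ ((y - (st.1 : K)) / (y - (st.2 : K))) ≤ C * mulHeight₁ y := by
    intro st
    obtain ⟨C, hC, h⟩ := mob_height (K := K) 1 (-(st.1 : K)) 1 (-(st.2 : K))
    refine ⟨C, hC, fun y => ?_⟩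
    have := h y
    simpa only [mul_one, ← sub_eq_add_neg] using this
  choose Cst hCst hHst using hmob
  set ST : Finset (ℕ × ℕ) := Finset.range (2 * d + 2) ×ˢ Finset.range (2 * d + 2) with hST
  set C1 : ℝ := ∑ st ∈ ST, Cst st with hC1
  have hC1le : ∀ st ∈ ST, Cst st ≤ C1 := fun st hst =>
    Finset.single_le_sum (f := Cst) (fun i _ => (hCst i).le) hst
  have hSTne : ((0 : ℕ), (0 : ℕ)) ∈ ST := by
    rw [hST, Finset.mem_product]; simp
  have hC1pos : 0 < C1 := (hCst _).trans_le (hC1le _ hSTne)
  have hp2 : 2 ≤ p := hp.two_le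
  have hl2' : 2 ≤ l := hl.two_le
  have hpR : (1 : ℝ) ≤ p := by exact_mod_cast hp.one_lt.le
  have hlR : (1 : ℝ) ≤ l := by exact_mod_cast hl.one_lt.le
  -- the primes above `p` and `l`
  set Wp : Finset (Pr K) := Vp K p hp.ne_zero with hWp
  set Wl : Finset (Pr K) := Vp K l hl.ne_zero with hWl
  have hWd : Disjoint Wp Wl := by
    rw [Finset.disjoint_left]
    intro v h1 h2
    rw [hWp, mem_Vp] at h1
    rw [hWl, mem_Vp] at h2
    have := fv_eq_one_of_coprime v h1 ((Nat.coprime_primes hp hl).mpr hpl)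
    linarith
  set CN : ℝ := ∑ v ∈ Wp ∪ Wl, Real.log (Nv v) with hCN
  have hCN0 : 0 ≤ CN := Finset.sum_nonneg fun v _ => (Pool.Agent.H691R3.log_Nv_pos v).le
  obtain ⟨c, R0, hc, hR0, hlow⟩ := Pool.Agent.H437R2.Man.Low.count_lower K
  set S : ℝ := (ST.card : ℝ) with hS
  have hSpos : 0 < S := by
    rw [hS]; exact_mod_cast Finset.card_pos.mpr ⟨_, hSTne⟩
  have hcS : 0 < c / S := by positivity
  -- the constants
  set CC : ℝ := d * Real.log (p * l) + CN / 2 + |Real.log C1| with hCC
  have hlpl : 0 ≤ Real.log ((p : ℝ) * l) := Real.log_nonneg (by nlinarith)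
  refine ⟨c / S / 2, CC, max R0 (6 / (c / S) + 1), by positivity, by positivity,
    hR0.trans (le_max_left _ _), ?_⟩
  intro τ ρ hτ hρ
  have hρR : R0 ≤ ρ := (le_max_left _ _).trans hρ
  have hρ1 : 1 ≤ ρ := hR0.trans hρR
  have hρ0 : 0 < ρ := by linarith
  obtain ⟨U, hU⟩ : ∃ U, U = Real.exp ((τ + CN) / (2 * d)) := ⟨_, rfl⟩
  have hU1 : 1 ≤ U := by
    rw [hU]
    exact Real.one_le_exp (by positivity)
  have hU0 : 0 < U := by linarith
  have hlU : Real.log U = (τ + CN) / (2 * d) := by rw [hU, Real.log_exp]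
  obtain ⟨m, hm1, hm2⟩ := exists_pow_window hp2 hU1
  obtain ⟨n, hn1, hn2⟩ := exists_pow_window hl2' hU1
  have hmlog : (τ + CN) / (2 * d) ≤ m * Real.log p := by
    have := Real.log_le_log hU0 hm1
    rwa [Real.log_pow, hlU] at this
  have hnlog : (τ + CN) / (2 * d) ≤ n * Real.log l := by
    have := Real.log_le_log hU0 hn1
    rwa [Real.log_pow, hlU] at this
  have hsumlog : τ + CN ≤ d * (m * Real.log p + n * Real.log l) := by
    have h1 : d * ((τ + CN) / (2 * d) + (τ + CN) / (2 * d)) = τ + CN := by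
      field_simp
      ring
    rw [← h1]
    exact mul_le_mul_of_nonneg_left (add_le_add hmlog hnlog) hdR.le
  set u : K := ((p ^ m : ℕ) : K) / ((l ^ n : ℕ) : K) with hu
  have hu0 : u ≠ 0 := by
    rw [hu]
    refine div_ne_zero ?_ ?_
    · exact_mod_cast pow_ne_zero m hp.ne_zero
    · exact_mod_cast pow_ne_zero n hl.ne_zero
  have hHu : mulHeight₁ u ≤ (p * l * U) ^ d := by
    refine mulHeight₁_ratio (pow_ne_zero n hl.ne_zero) (p * l * U) ?_ ?_
    · push_cast
      refine hm2.trans ?_
      have : (p : ℝ) * U ≤ l * (p * U) := le_mul_of_one_le_left (by positivity) hlR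
      linarith
    · push_cast
      refine hn2.trans ?_
      have : (l : ℝ) * U ≤ p * (l * U) := le_mul_of_one_le_left (by positivity) hpR
      linarith
  obtain ⟨F, hF, hFc⟩ := hlow ρ hρR
  -- choice of the shifts
  have hsh := fun z : K => exists_shift (K := K) hp hl hpge (by omega) z
  choose σ τ' hσ hτ' hστ hs1 hs2 using hsh
  -- pigeonhole
  obtain ⟨st, hst, hfib⟩ : ∃ st ∈ ST, (F.card : ℝ) / S ≤
      ((F.filter fun z => (σ z, τ' z) = st).card : ℝ) := by
    by_contra hcon
    push Not at hcon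
    have h1 : (F.card : ℝ) = ∑ st ∈ ST, ((F.filter fun z => (σ z, τ' z) = st).card : ℝ) := by
      exact_mod_cast Finset.card_eq_sum_card_fiberwise (f := fun z => (σ z, τ' z)) (t := ST)
        (fun z _ => Finset.mem_product.mpr ⟨hσ z, hτ' z⟩)
    have h2 : ∑ st ∈ ST, ((F.filter fun z => (σ z, τ' z) = st).card : ℝ) <
        ∑ st ∈ ST, (F.card : ℝ) / S :=
      Finset.sum_lt_sum_of_nonempty ⟨_, hSTne⟩ hcon
    rw [Finset.sum_const, nsmul_eq_mul, ← hS, mul_div_cancel₀ _ hSpos.ne', ← h1] at h2
    exact lt_irrefl _ h2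
  obtain ⟨s, t⟩ := st
  set G := F.filter fun z => (σ z, τ' z) = (s, t) with hG
  have hGc : c / S * ρ ^ 2 ≤ G.card := by
    refine le_trans ?_ hfib
    rw [le_div_iff₀ hSpos]
    refine le_trans (le_of_eq ?_) hFc
    field_simp
  by_cases hGe : G = ∅
  · -- impossible
    exfalso
    rw [hGe, Finset.card_empty, Nat.cast_zero] at hGc
    have : 0 < c / S * ρ ^ 2 := by positivity
    linarith
  obtain ⟨z0, hz0⟩ := Finset.nonempty_iff_ne_empty.mpr hGe
  have hst' : s ≠ t := by
    rw [hG, Finset.mem_filter] at hz0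
    have h1 := congrArg Prod.fst hz0.2
    have h2 := congrArg Prod.snd hz0.2
    simp only at h1 h2
    rw [← h1, ← h2]
    exact hστ z0
  set Ex : Finset K := {(s : K), (t : K), (u * s + t) / (u + 1)} with hEx
  have hExc : Ex.card ≤ 3 := Finset.card_le_three
  set G' := G \ Ex with hG'
  have hprop : ∀ z ∈ G', z ≠ t ∧ z ≠ s ∧ Pt (yy u s t z) := by
    intro z hz
    rw [hG', Finset.mem_sdiff, hEx, Finset.mem_insert, Finset.mem_insert,
      Finset.mem_singleton] at hz
    push Not at hz
    obtain ⟨hz1, hz2, hz3, hz4⟩ := hz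
    have hzt : z - t ≠ 0 := sub_ne_zero.mpr hz3
    have hzs : z - s ≠ 0 := sub_ne_zero.mpr hz2
    refine ⟨hz3, hz2, mul_ne_zero hu0 (div_ne_zero hzs hzt), fun h => hz4 ?_⟩
    unfold yy at h
    have h1 : u * (z - s) + (z - t) = 0 := by
      have h2 : (u * ((z - s) / (z - t)) + 1) * (z - t) = 0 := by rw [h, zero_mul]
      rw [add_mul, one_mul, mul_assoc, div_mul_cancel₀ _ hzt] at h2
      exact h2
    have hu1 : u + 1 ≠ 0 := by
      intro hu1
      have hu2 : u = -1 := by linear_combination hu1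
      rw [hu2] at h1
      apply hst'
      have : (s : K) = t := by linear_combination h1
      exact_mod_cast this
    rw [eq_div_iff hu1]
    linear_combination h1
  refine ⟨G'.image (yy u s t), ?_, ?_⟩
  · intro x hx
    rw [Finset.mem_image] at hx
    obtain ⟨z, hz, rfl⟩ := hx
    obtain ⟨hz1, hz2, hz3⟩ := hprop z hz
    have hzG : z ∈ G := (Finset.mem_sdiff.mp hz).1
    rw [hG, Finset.mem_filter] at hzG
    obtain ⟨hzF, hzst⟩ := hzG
    have hσz : σ z = s := congrArg Prod.fst hzst
    have hτz : τ' z = t := congrArg Prod.snd hzst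
    refine ⟨hz3, ?_, ?_⟩
    · -- the excess
      set g : Pr K → ℝ := fun v => if v ∈ Wp then m * (-Real.log (fv v (p : K)))
        else n * (-Real.log (fv v (l : K))) with hg
      have h2one : ∀ v ∈ Wp ∪ Wl, fv v (2 : K) = 1 := by
        intro v hv
        rw [Finset.mem_union] at hv
        rcases hv with hv | hv
        · rw [hWp, mem_Vp] at hv
          have := fv_eq_one_of_coprime v (b := 2) hv
            ((Nat.coprime_primes hp Nat.prime_two).mpr (by omega))
          exact_mod_cast this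
        · rw [hWl, mem_Vp] at hv
          have := fv_eq_one_of_coprime v (b := 2) hv
            ((Nat.coprime_primes hl Nat.prime_two).mpr (by omega))
          exact_mod_cast this
      have hgW : ∀ v ∈ Wp ∪ Wl, 2 * g v ≤ lp (fv v) (JJ (yy u s t z)) := by
        intro v hv
        obtain ⟨k1, k2, _⟩ := lp_three v (h2one v hv) hz3
        by_cases hvp : v ∈ Wp
        · have e1 : g v = m * (-Real.log (fv v (p : K))) := by
            rw [hg]
            simp only
            rw [if_pos hvp]
          rw [e1]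
          rw [hWp, mem_Vp] at hvp
          have h3 := log_yy_left (m := m) (n := n) hp hl hpl hz1 hz2 hvp
            (by rw [← hσz, ← hτz]; exact hs1 z v hvp)
          linarith
        · have e1 : g v = n * (-Real.log (fv v (l : K))) := by
            rw [hg]
            simp only
            rw [if_neg hvp]
          have hvl : v ∈ Wl := (Finset.mem_union.mp hv).resolve_left hvp
          rw [e1]
          rw [hWl, mem_Vp] at hvl
          have h3 := log_yy_right (m := m) (n := n) hp hl hpl hz1 hz2 hvl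
            (by rw [← hσz, ← hτz]; exact hs2 z v hvl)
          linarith
      have hmain := sum_lp_ge hz3 (Wp ∪ Wl) g hgW
      have hgs : ∑ v ∈ Wp ∪ Wl, (g v - Real.log (Nv v)) =
          d * (m * Real.log p + n * Real.log l) - CN := by
        rw [Finset.sum_sub_distrib, ← hCN, Finset.sum_union hWd]
        have e1 : ∑ v ∈ Wp, g v = m * (d * Real.log p) := by
          rw [← sum_Vp (K := K) hp.ne_zero, Finset.mul_sum]
          refine Finset.sum_congr rfl fun v hv => ?_
          rw [hg]
          simp only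
          rw [if_pos hv]
        have e2 : ∑ v ∈ Wl, g v = n * (d * Real.log l) := by
          rw [← sum_Vp (K := K) hl.ne_zero, Finset.mul_sum]
          refine Finset.sum_congr rfl fun v hv => ?_
          rw [hg]
          simp only
          rw [if_neg (Finset.disjoint_right.mp hWd hv)]
        rw [e1, e2]
        ring
      rw [hgs] at hmain
      have e : (@sdiff _ (@Finset.instSDiff _ (Classical.decEq _)) (sp (yy u s t z)) (T2 K)) =
          sp (yy u s t z) \ T2 K := by congr
      rw [e]
      linarith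
    · -- the height
      have e2 : mulHeight₁ (yy u s t z) ≤ mulHeight₁ u * mulHeight₁ ((z - s) / (z - t)) :=
        mulHeight₁_mul_le _ _
      have e3 : mulHeight₁ ((z - s) / (z - t)) ≤ C1 * ρ := by
        refine (hHst (s, t) z).trans ?_
        exact mul_le_mul (hC1le _ hst) (hF z hzF) (mulHeight₁_nonneg _) hC1pos.le
      have e4 : mulHeight₁ (yy u s t z) ≤ (p * l * U) ^ d * (C1 * ρ) :=
        e2.trans (mul_le_mul hHu e3 (mulHeight₁_nonneg _) (by positivity))
      have e5 := Real.log_le_log (mulHeight₁_pos _) e4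
      have hplU : (0 : ℝ) < p * l * U := by positivity
      rw [Real.log_mul (pow_pos hplU d).ne' (mul_pos hC1pos hρ0).ne', Real.log_pow,
        Real.log_mul hC1pos.ne' hρ0.ne', Real.log_mul (by positivity) hU0.ne', hlU] at e5
      have e6 : (d : ℝ) * (Real.log (p * l) + (τ + CN) / (2 * d)) =
          d * Real.log (p * l) + τ / 2 + CN / 2 := by
        field_simp
        ring
      rw [e6] at e5
      have e7 := le_abs_self (Real.log C1)
      have e8 : Height.logHeight₁ (yy u s t z) = Real.log (mulHeight₁ (yy u s t z)) := rfl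
      rw [e8, hCC]
      linarith
  · have hinj : Set.InjOn (yy u s t) (G' : Set K) := by
      intro z hz z' hz' he
      obtain ⟨hz1, hz2, hz3⟩ := hprop z hz
      obtain ⟨hz1', hz2', hz3'⟩ := hprop z' hz'
      exact yy_inj hu0 hst' hz1 hz1' he
    rw [Finset.card_image_of_injOn hinj]
    have h1 : (G.card : ℝ) - 3 ≤ G'.card := by
      have h2 : G.card ≤ G'.card + Ex.card := by
        have := Finset.card_le_card_sdiff_add_card (s := G) (t := Ex)
        rw [hG']
        omega
      have h3 : (G.card : ℝ) ≤ G'.card + 3 := by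
        have : G.card ≤ G'.card + 3 := by omega
        exact_mod_cast this
      linarith
    refine le_trans ?_ h1
    have h4 : 6 / (c / S) + 1 ≤ ρ := (le_max_right _ _).trans hρ
    have h5 : 6 ≤ c / S * ρ := by
      have : 6 / (c / S) ≤ ρ := by linarith
      rwa [div_le_iff₀ hcS, mul_comm] at this
    have h6 : 6 ≤ c / S * ρ ^ 2 := by nlinarith
    linarith

end Pool.Agent.R365.CV
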