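import Mathlib
import Pool.Agent.R365.CV.Low2
import Pool.Agent.Y729.FW.Surj

set_option autoImplicit false

/-!
# Many curves of large height
-/

namespace Pool.Agent.R365.CV

open NumberField IsDedekindDomain Finset
open Pool.Agent.H691R3 (fv fv_na fv_zpow Nv)
open Pool.Agent.TH876.Loc
open Pool.Agent.TH876.FH (IsPeriod FullTwo)
open Pool.Agent.Y729.AH
open Pool.Agent.Y729.AE (hRes)
open Pool.Agent.Y729.FW (lp lp_nonneg lp_support)

/-- every invariant has periods -/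
theorem exists_period {L : Type} [Field L] [NumberField L] (j : L) :
    ∃ τ : InfinitePlace L → UpperHalfPlane, IsPeriod j τ := by
  have h := fun w : InfinitePlace L => Pool.Agent.Y729.FW.j_surj (w.embedding j)
  choose τ hτ using h
  exact ⟨τ, hτ⟩

open Classical in
/-- a curve with given parameter and few additive primes -/
theorem curve_of (K : Type) [Field K] [NumberField K] : ∃ t0 : ℝ, 1 ≤ t0 ∧ ∀ z : K, Pt z →
    ∃ (E : WeierstrassCurve K) (a b : K), E.Δ ≠ 0 ∧ Pm E a b ∧ -(b / a) = z ∧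
      cond E ≤ nn (sp z \ T2 K) * t0 := by
  obtain ⟨T', hT'⟩ := copr K
  refine ⟨nn T' * nn T', ?_, fun z hz => ?_⟩
  · have := one_le_nn T'
    nlinarith
  obtain ⟨z0, z1⟩ := hz
  obtain ⟨a, ha, hv⟩ := hT' (-z) (neg_ne_zero.2 z0)
  have hb : -z * a ≠ 0 := mul_ne_zero (neg_ne_zero.2 z0) ha
  have hab : a ≠ -z * a := by
    intro h
    apply z1
    have : a * (z + 1) = 0 := by linear_combination h
    exact (mul_eq_zero.1 this).resolve_left ha
  have hp := pm_EE ha hb hab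
  have hΔ : (EE a (-z * a)).Δ ≠ 0 := by
    rw [(pm_disc hp).1]
    exact mul_ne_zero (by norm_num) (mul_ne_zero (mul_ne_zero (pow_ne_zero _ ha)
      (pow_ne_zero _ hb)) (pow_ne_zero _ (sub_ne_zero.2 hab)))
  have hza : -(-z * a / a) = z := by
    field_simp
  refine ⟨EE a (-z * a), a, -z * a, hΔ, hp, hza, ?_⟩
  rw [cond_eq hΔ hp, hza]
  have hAT : AA (EE a (-z * a)) ⊆ T' := by
    intro v hv1
    rw [mem_AA hΔ] at hv1
    by_contra hc
    apply hv1.1
    rw [semi_iff v hv1.2 hp]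
    refine ⟨1, one_ne_zero, ?_⟩
    rw [hv v hc, map_one]
    norm_num
  have h1 : nn ((sp z \ T2 K) ∪ AA (EE a (-z * a))) ≤ nn (sp z \ T2 K) * nn T' := by
    calc nn ((sp z \ T2 K) ∪ AA (EE a (-z * a))) ≤
          nn ((sp z \ T2 K) ∪ (T' \ (sp z \ T2 K))) := by
          refine nn_mono fun v hv1 => ?_
          rw [Finset.union_sdiff_self_eq_union]
          rw [Finset.mem_union] at hv1 ⊢
          rcases hv1 with h1 | h1
          · exact Or.inl h1
          · exact Or.inr (hAT h1)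
      _ = nn (sp z \ T2 K) * nn (T' \ (sp z \ T2 K)) := nn_union Finset.disjoint_sdiff
      _ ≤ _ := mul_le_mul_of_nonneg_left (nn_mono Finset.sdiff_subset) (nn_pos _).le
  have h2 : nn (AA (EE a (-z * a))) ≤ nn T' := nn_mono hAT
  calc _ ≤ nn (sp z \ T2 K) * nn T' * nn T' := mul_le_mul h1 h2 (nn_pos _).le
        (mul_pos (nn_pos _) (nn_pos _)).le
    _ = _ := by ring

open Classical in
/-- the invariants of the parameters -/
theorem six_to_one {K : Type} [Field K] [NumberField K] (F : Finset K) (hF : ∀ z ∈ F, Pt z)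
    (E : K → WeierstrassCurve K) (hE : ∀ z ∈ F, (E z).Δ ≠ 0 ∧ (E z).c₄ ^ 3 / (E z).Δ = JJ z) :
    F.card ≤ 6 * (F.image fun z => cl (E z)).card := by
  refine Finset.card_le_mul_card_image F 6 fun q hq => ?_
  rw [Finset.mem_image] at hq
  obtain ⟨z0, hz0, rfl⟩ := hq
  have h1 : (F.filter fun z => cl (E z) = cl (E z0)) ⊆ (QK (JJ z0)).roots.toFinset := by
    intro z hz
    rw [Finset.mem_filter] at hz
    obtain ⟨hz, hy⟩ := hz
    obtain ⟨C, hC⟩ := cl_eq.1 hy
    have hjj : JJ z = JJ z0 := by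
      rw [← (hE z hz).2, ← (hE z0 hz0).2, ← hC]
      exact (jinv_change (hE z0 hz0).1 C).2.symm
    have hpt := hF z hz
    rw [Multiset.mem_toFinset, Polynomial.mem_roots (QK_ne _), Polynomial.IsRoot.def]
    have hd : z ^ 2 * (1 + z) ^ 2 ≠ 0 := by
      have e : 1 + z = z + 1 := by ring
      rw [e]
      exact mul_ne_zero (pow_ne_zero _ hpt.1) (pow_ne_zero _ hpt.2)
    have hy2 : 256 * (z ^ 2 + z + 1) ^ 3 / (z ^ 2 * (1 + z) ^ 2) = JJ z0 := hjj
    rw [div_eq_iff hd] at hy2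
    unfold QK
    simp only [Polynomial.eval_sub, Polynomial.eval_mul, Polynomial.eval_add,
      Polynomial.eval_pow, Polynomial.eval_X, Polynomial.eval_one, Polynomial.eval_C,
      Polynomial.eval_ofNat]
    linear_combination hy2
  calc (F.filter fun z => cl (E z) = cl (E z0)).card ≤ (QK (JJ z0)).roots.toFinset.card :=
        Finset.card_le_card h1
    _ ≤ Multiset.card (QK (JJ z0)).roots := Multiset.toFinset_card_le _
    _ ≤ (QK (JJ z0)).natDegree := Polynomial.card_roots' _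
    _ ≤ 6 := QK_deg _

/-- the classes of height at least `(1 / 6) log cond + c` -/
def Hi (K L : Type) [Field K] [NumberField K] [Field L] [NumberField L] [Algebra K L]
    (c X : ℝ) : Set (Iso L) :=
  {q | ∃ (E : WeierstrassCurve L) (τ : InfinitePlace L → UpperHalfPlane), cl E = q ∧ E.Δ ≠ 0 ∧
    FullTwo E ∧ cond E ≤ X ∧ IsPeriod (E.c₄ ^ 3 / E.Δ) τ ∧
    Real.log (cond E) / 6 + c ≤ Module.finrank ℚ K * hRes K E τ}

open Classical in
/-- all classes: the lower bound for the height -/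
theorem height_ge : ∃ C : ℝ, 0 ≤ C ∧ ∀ (K L : Type) [Field K] [NumberField K] [Field L]
    [NumberField L] [Algebra K L] (E : WeierstrassCurve L)
    (τ : InfinitePlace L → UpperHalfPlane), E.Δ ≠ 0 → FullTwo E →
    Real.log (cond E) / 6 - C * Module.finrank ℚ L ≤ Module.finrank ℚ K * hRes K E τ := by
  obtain ⟨cA, hcA, hA⟩ := hres_ge
  refine ⟨cA / 12, by positivity, ?_⟩
  intro K L _ _ _ _ _ E τ hE hF
  obtain ⟨a, b, hp⟩ := pm_of_two hF
  obtain ⟨k1, k2, k3⟩ := cond_bounds hE hp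
  have hPt : Pt (-(b / a)) := (sp_iff hp.1 hp.2.1 hp.2.2.1).1
  have h1 := hA K L E a b τ hE hp
  rw [jj_pm hp] at h1
  have h2 := sum_lp_ge hPt ∅ (fun _ => 0) (fun v hv => absurd hv (Finset.notMem_empty v))
  rw [Finset.sum_empty, mul_zero, add_zero] at h2
  have hD : 0 ≤ Real.log (nn (AA E)) := Real.log_nonneg (one_le_nn _)
  linarith

open Classical in
/-- **many classes of large height** -/
theorem high_lower (L : Type) [Field L] [NumberField L] : ∃ c0 C : ℝ, 0 < c0 ∧ 0 < C ∧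
    ∀ (K : Type) [Field K] [NumberField K] [Algebra K L] (X c : ℝ), 0 ≤ c →
      C * Real.exp (3 * c) ≤ X →
      c0 * (Real.exp (-(2 * c)) * X ^ (2 / 3 : ℝ)) ≤ ((Hi K L c X).ncard : ℝ) := by
  obtain ⟨cA, hcA, hA⟩ := hres_ge
  obtain ⟨cB, hcB, hB⟩ := sum_lp_le
  obtain ⟨t0, ht0, hcur⟩ := curve_of L
  obtain ⟨c1, C1, R0, hc1, hC1, hR0, hfam⟩ := family L
  obtain ⟨d, hd⟩ : ∃ d : ℝ, d = (Module.finrank ℚ L : ℝ) := ⟨_, rfl⟩
  have hd0 : 0 ≤ d := by rw [hd]; positivity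
  obtain ⟨C6, hC6⟩ : ∃ C6 : ℝ, C6 = 3 * C1 + cB * d / 2 + Real.log t0 := ⟨_, rfl⟩
  have hlt0 : 0 ≤ Real.log t0 := Real.log_nonneg ht0
  have hC60 : 0 ≤ C6 := by rw [hC6]; positivity
  have hR00 : 0 < R0 := by linarith
  have hlR0 : 0 ≤ Real.log R0 := Real.log_nonneg hR0
  refine ⟨c1 * Real.exp (-(cA * d / 6 + 2 * C6 / 3)) / 6,
    Real.exp (3 * Real.log R0 + cA * d / 4 + C6), by positivity, Real.exp_pos _, ?_⟩
  intro K _ _ _ X c hc hX
  obtain ⟨τ, hτ⟩ : ∃ τ : ℝ, τ = 6 * c + cA * d / 2 := ⟨_, rfl⟩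
  have hτ0 : 0 ≤ τ := by rw [hτ]; positivity
  have hX1 : 1 ≤ X := by
    refine le_trans ?_ hX
    rw [← Real.exp_add]
    exact Real.one_le_exp (by positivity)
  have hX0 : 0 < X := by linarith
  have hlX : 3 * Real.log R0 + τ / 2 + C6 ≤ Real.log X := by
    rw [← Real.exp_add] at hX
    have := (Real.le_log_iff_exp_le hX0).mpr hX
    rw [hτ]
    linarith
  obtain ⟨ρ, hρ⟩ : ∃ ρ : ℝ, ρ = Real.exp ((Real.log X - τ / 2 - C6) / 3) := ⟨_, rfl⟩
  have hρR : R0 ≤ ρ := by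
    rw [hρ, ← Real.log_le_iff_le_exp hR00]
    linarith
  have hlρ : Real.log ρ = (Real.log X - τ / 2 - C6) / 3 := by rw [hρ, Real.log_exp]
  obtain ⟨F, hF, hFc⟩ := hfam τ ρ hτ0 hρR
  have hne : Nonempty (WeierstrassCurve L) := ⟨EE 1 1⟩
  have hcur' : ∀ z ∈ F, ∃ (E : WeierstrassCurve L) (a b : L), E.Δ ≠ 0 ∧ Pm E a b ∧
      -(b / a) = z ∧ cond E ≤ nn (sp z \ T2 L) * t0 := fun z hz => hcur z (hF z hz).1
  choose! E a b hE1 hE2 hE3 hE4 using hcur'
  have hcond : ∀ z ∈ F, cond (E z) ≤ X ∧ cl (E z) ∈ Hi K L c X := by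
    intro z hz
    obtain ⟨g1, g2, g3⟩ := hF z hz
    have e : (@sdiff _ (@Finset.instSDiff _ (Classical.decEq _)) (sp z) (T2 L)) =
          sp z \ T2 L := by congr
    rw [e] at g2
    obtain ⟨R, hR⟩ : ∃ R, R = Real.log (nn (sp z \ T2 L)) := ⟨_, rfl⟩
    rw [← hR] at g2
    have hb := hB L z g1
    rw [← hd] at hb
    have hRle : R ≤ 3 * Real.log ρ + τ / 2 + 3 * C1 + cB * d / 2 := by linarith
    have hcpos : 1 ≤ cond (E z) := (cond_bounds (hE1 z hz) (hE2 z hz)).2.2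
    have hlc : Real.log (cond (E z)) ≤ R + Real.log t0 := by
      have h1 := Real.log_le_log (by linarith) (hE4 z hz)
      rw [Real.log_mul (nn_pos _).ne' (by linarith), ← hR] at h1
      exact h1
    have hcX : cond (E z) ≤ X := by
      rw [← Real.log_le_log_iff (by linarith) hX0]
      rw [hlρ] at hRle
      rw [hC6] at hRle
      linarith
    refine ⟨hcX, ?_⟩
    obtain ⟨τ', hτ'⟩ := exists_period ((E z).c₄ ^ 3 / (E z).Δ)
    refine ⟨E z, τ', rfl, hE1 z hz, two_of_pm (hE2 z hz), hcX, hτ', ?_⟩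
    obtain ⟨k1, k2, k3⟩ := cond_bounds (hE1 z hz) (hE2 z hz)
    have h1 := hA K L (E z) (a z) (b z) τ' (hE1 z hz) (hE2 z hz)
    rw [jj_pm (hE2 z hz), hE3 z hz, ← hd] at h1
    rw [hE3 z hz, ← hR] at k2
    have hD : 0 ≤ Real.log (nn (AA (E z))) := Real.log_nonneg (one_le_nn _)
    rw [hτ] at g2
    linarith
  have hsub : ((F.image fun z => cl (E z) : Finset (Iso L)) : Set (Iso L)) ⊆ Hi K L c X := by
    intro q hq
    rw [Finset.mem_coe, Finset.mem_image] at hq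
    obtain ⟨z, hz, rfl⟩ := hq
    exact (hcond z hz).2
  have hcard := six_to_one F (fun z hz => (hF z hz).1) E (fun z hz => ⟨hE1 z hz, by
    rw [jj_pm (hE2 z hz), hE3 z hz]⟩)
  obtain ⟨C9, hC9, hup⟩ := cl2_upper L 1 one_pos
  have hfin : (Hi K L c X).Finite := by
    refine (hup X hX1).1.subset ?_
    rintro q ⟨E, τ, g1, g2, g3, g4, g5, g6⟩
    exact ⟨E, g1, g2, g3, g4⟩
  have h3 : (F.image fun z => cl (E z)).card ≤ (Hi K L c X).ncard := by
    rw [← Set.ncard_coe_finset]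
    exact Set.ncard_le_ncard hsub hfin
  have h4 : (F.card : ℝ) ≤ 6 * (Hi K L c X).ncard := by exact_mod_cast hcard.trans (by omega)
  have h5 : ρ ^ 2 = X ^ (2 / 3 : ℝ) * Real.exp (-(2 * c)) *
      Real.exp (-(cA * d / 6 + 2 * C6 / 3)) := by
    rw [hρ, Real.rpow_def_of_pos hX0, ← Real.exp_nat_mul, ← Real.exp_add, ← Real.exp_add, hτ]
    congr 1
    push_cast
    ring
  rw [h5] at hFc
  linarith

end Pool.Agent.R365.CV
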