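import Mathlib
import Pool.Agent.R365.CV.Low3

set_option autoImplicit false

/-!
# Few curves of large height
-/

namespace Pool.Agent.R365.CV

open NumberField IsDedekindDomain Finset
open Pool.Agent.H691R3 (fv fv_na fv_zpow Nv)
open Pool.Agent.TH876.Loc
open Pool.Agent.TH876.FH (IsPeriod FullTwo)
open Pool.Agent.Y729.AH
open Pool.Agent.Y729.AE (hRes)

/-- the height of the parameter from above, uniformly in the field of definition of the Weil
restriction -/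
theorem hres_upper' (L : Type) [Field L] [NumberField L] :
    ∃ C : ℝ, 0 ≤ C ∧ ∀ (K : Type) [Field K] [NumberField K] [Algebra K L]
      (E : WeierstrassCurve L) (a b : L) (τ : InfinitePlace L → UpperHalfPlane),
      E.Δ ≠ 0 → Pm E a b → IsPeriod (E.c₄ ^ 3 / E.Δ) τ →
      2 * ((Module.finrank ℚ K : ℝ) * hRes K E τ) ≤
        hgt (-(b / a)) + Real.log (nn (AA E)) + C := by
  obtain ⟨c1, hc1, hf1⟩ := Pool.Agent.Y729.FW.fal_two
  obtain ⟨c2, hc2, hf2⟩ := Pool.Agent.Y729.FW.six_height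
  obtain ⟨C0, hC0⟩ : ∃ C0 : ℝ, C0 = (c1 + c2) * Module.finrank ℚ L +
    (CT L + 6 * Real.log |(discr L : ℝ)|) := ⟨_, rfl⟩
  refine ⟨|C0| / 6, by positivity, fun K _ _ _ E a b τ hE hp hτ => ?_⟩
  obtain ⟨-, h2⟩ := hres_bounds (K := K) hE hp τ
  have hl0 : b / a ≠ 0 := div_ne_zero hp.2.1 hp.1
  have hl1 : b / a ≠ 1 := by
    rw [Ne, div_eq_one_iff_eq hp.1]
    exact fun h => hp.2.2.1 h.symm
  have hj : E.c₄ ^ 3 / E.Δ * ((b / a) ^ 2 * (1 - b / a) ^ 2) = 256 * ((b / a) ^ 2 - b / a + 1) ^ 3 := by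
    obtain ⟨k1, k2⟩ := pm_disc hp
    have ha := hp.1
    have hb := hp.2.1
    have hab : a - b ≠ 0 := sub_ne_zero.2 hp.2.2.1
    rw [k1, k2]
    field_simp
    ring
  have k1 := hf1 L _ τ hτ
  have k2 := (hf2 L _ _ hl0 hl1 hj).2
  have k3 := hgt_ge hl0 hl1
  have k4 := le_abs_self C0
  have k5 : 0 ≤ (Module.finrank K L : ℝ) * Real.log |(discr K : ℝ)| := by
    have hK : (1 : ℝ) ≤ |(discr K : ℝ)| := Pool.Agent.W222.UABC.one_le_disc
    exact mul_nonneg (Nat.cast_nonneg _) (Real.log_nonneg hK)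
  rw [hC0] at k4
  rw [hC0]
  linarith

/-- **all classes** -/
theorem cl2_sharp (L : Type) [Field L] [NumberField L] : ∃ C : ℝ, 0 < C ∧ ∀ X : ℝ, 1 ≤ X →
    (Cl2 L X).Finite ∧ ((Cl2 L X).ncard : ℝ) ≤ C * X ^ (2 / 3 : ℝ) := by
  classical
  obtain ⟨C, ν, hC, hν, h⟩ := curve_tail L 0 le_rfl (by norm_num)
  refine ⟨2 * C, by positivity, fun X hX => ?_⟩
  have hX0 : 0 < X := by linarith
  refine fin_of_bound _ _ fun Q hQ => ?_
  have h1 := h X 0 hX Q (fun q hq => by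
    obtain ⟨E, h1, h2, h3, h4⟩ := hQ hq
    obtain ⟨a, b, h5⟩ := pm_of_two h3
    refine ⟨E, a, b, h1, h2, h5, h4, ?_⟩
    have hPt := (sp_iff h5.1 h5.2.1 h5.2.2.1).1
    have e1 := Pool.Agent.Y728.AK.rad_le_three hPt
    have e2 : Real.log (nn (sp (-(b / a)) \ T2 L)) ≤ Real.log (nn (sp (-(b / a)))) :=
      Real.log_le_log (nn_pos _) (nn_mono Finset.sdiff_subset)
    have e3 : 0 ≤ Real.log (nn (AA E ∩ sp (-(b / a)))) := Real.log_nonneg (one_le_nn _)
    have e4 : 0 ≤ Real.log (nn (AA E \ sp (-(b / a)))) := Real.log_nonneg (one_le_nn _)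
    linarith)
  rw [zero_mul, neg_zero, Real.exp_zero] at h1
  have h2 : X ^ (-ν) ≤ 1 := Real.rpow_le_one_of_one_le_of_nonpos hX (by linarith)
  refine h1.trans (mul_le_mul_of_nonneg_right ?_ (by positivity))
  nlinarith

/-- **few classes of large height** -/
theorem high_upper (L : Type) [Field L] [NumberField L] (t : ℝ) (ht0 : 0 < t) (ht2 : t < 2) :
    ∃ ν C : ℝ, 0 < ν ∧ 0 < C ∧ ∀ (K : Type) [Field K] [NumberField K] [Algebra K L] (X c : ℝ),
      1 ≤ X → ((Hi K L c X).ncard : ℝ) ≤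
        C * ((Real.exp (-(t * c)) + X ^ (-ν)) * X ^ (2 / 3 : ℝ)) := by
  classical
  obtain ⟨C0, hC0, hres⟩ := hres_upper' L
  obtain ⟨C, ν, hC, hν, h⟩ := curve_tail L (t / 6) (by positivity) (by linarith)
  have he : (1 : ℝ) ≤ Real.exp (t * C0 / 2) := Real.one_le_exp (by positivity)
  refine ⟨ν, C * Real.exp (t * C0 / 2), hν, by positivity, fun K _ _ _ X c hX => ?_⟩
  have hX0 : 0 < X := by linarith
  refine (fin_of_bound _ _ fun Q hQ => ?_).2
  have h1 := h X (6 * c - 3 * C0) hX Q (fun q hq => by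
    obtain ⟨E, τ, h1, h2, h3, h4, h5, h6⟩ := hQ hq
    obtain ⟨a, b, hp⟩ := pm_of_two h3
    refine ⟨E, a, b, h1, h2, hp, h4, ?_⟩
    have k1 := cond_ge h2 hp
    have p1 := nn_pos (sp (-(b / a)) \ T2 L)
    have p2 := nn_pos (AA E ∩ sp (-(b / a)))
    have p3 := nn_pos (AA E \ sp (-(b / a)))
    have k2 := Real.log_le_log (by positivity) k1
    rw [Real.log_mul p1.ne' (by positivity), Real.log_mul p2.ne' (by positivity),
      Real.log_pow] at k2
    have k3 := hres K E a b τ h2 hp h5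
    have k4 : Real.log (nn (AA E)) = Real.log (nn (AA E ∩ sp (-(b / a)))) +
        Real.log (nn (AA E \ sp (-(b / a)))) := by
      rw [← Real.log_mul p2.ne' p3.ne', ← nn_union (Finset.disjoint_sdiff_inter _ _).symm,
        iu_sdiff]
    rw [k4] at k3
    push_cast at k2
    linarith)
  refine h1.trans (le_of_eq_of_le (by ring) (mul_le_mul_of_nonneg_right (?_ :
    C * (Real.exp (-(t / 6 * (6 * c - 3 * C0))) + X ^ (-ν)) ≤ C * Real.exp (t * C0 / 2) *
      (Real.exp (-(t * c)) + X ^ (-ν))) (by positivity : 0 ≤ X ^ (2 / 3 : ℝ))) |>.trans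
      (le_of_eq (by ring)))
  rw [mul_assoc]
  refine mul_le_mul_of_nonneg_left ?_ hC.le
  have e1 : Real.exp (-(t / 6 * (6 * c - 3 * C0))) =
      Real.exp (t * C0 / 2) * Real.exp (-(t * c)) := by
    rw [← Real.exp_add]
    congr 1
    ring
  have e2 : 0 ≤ X ^ (-ν) := by positivity
  rw [e1, mul_add]
  nlinarith

/-- **the classes from below** -/
theorem cl2_lower_sharp (L : Type) [Field L] [NumberField L] : ∃ c X0 : ℝ, 0 < c ∧ 1 ≤ X0 ∧
    ∀ X : ℝ, X0 ≤ X → c * X ^ (2 / 3 : ℝ) ≤ ((Cl2 L X).ncard : ℝ) := by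
  obtain ⟨c0, C, hc0, hC, h⟩ := high_lower L
  obtain ⟨C1, hC1, hup⟩ := cl2_sharp L
  refine ⟨c0, max C 1, hc0, le_max_right _ _, fun X hX => ?_⟩
  have h1 := h L X 0 le_rfl (by
    rw [mul_zero, Real.exp_zero, mul_one]
    exact (le_max_left _ _).trans hX)
  rw [mul_zero, neg_zero, Real.exp_zero, one_mul] at h1
  refine h1.trans (Nat.cast_le.2 (Set.ncard_le_ncard ?_ (hup X ((le_max_right _ _).trans hX)).1))
  rintro q ⟨E, τ, g1, g2, g3, g4, g5, g6⟩
  exact ⟨E, g1, g2, g3, g4⟩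

end Pool.Agent.R365.CV
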